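import Mathlib
import Pool.Agent.K9h50.NH.Low2
import Pool.Agent.K9h50.NH.Exi

/-!
# Lower bounds for log discrepancies over arbitrary points
-/

set_option autoImplicit false
set_option linter.unusedSectionVars false

namespace Pool.Agent.K9h50.NH

open Pool.Agent.H436R3.Fol Pool.Agent.H436R3.KT Pool.Agent.W497.Mld MvPolynomial
open Pool.Agent.TH165.ACC (pr ex Prim Cn Hs lead part mldsR mvI mem_mvI ord_eq_zero_of_notMem
  lead_eq coeff_part pr_add pr_zero pr_neg pr_sub pr_smul pr_smul_right ex_add ex_inj exists_minor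
  euler_part support_euler coeff_euler exists_nat_ex)
open Pool.Agent.Helper43K9.NH

section nullst

variable {n : ℕ}

/-- points of the torus on an irreducible closed subset -/
theorem exists_pt {𝔭 : Ideal (MvPolynomial (Fin n) ℂ)} (h𝔭 : 𝔭.IsPrime)
    (hX : ∀ i, (X i : MvPolynomial (Fin n) ℂ) ∉ 𝔭) {q : MvPolynomial (Fin n) ℂ} (hq : q ∉ 𝔭) :
    ∃ ξ : Fin n → ℂ, (∀ i, ξ i ≠ 0) ∧ (∀ p ∈ 𝔭, eval ξ p = 0) ∧ eval ξ q ≠ 0 := by
  by_contra h2
  push Not at h2
  have h3 : q * (∏ i, (X i : MvPolynomial (Fin n) ℂ)) ∈ vanishingIdeal ℂ (zeroLocus ℂ 𝔭) := by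
    rw [mem_vanishingIdeal_iff]
    intro ξ hξ
    have hev : ∀ p ∈ 𝔭, eval ξ p = 0 := by
      intro p hp
      have := mem_zeroLocus_iff.1 hξ p hp
      rwa [← coe_aeval_eq_eval]
    rw [map_mul, map_prod]
    by_cases h4 : ∀ i, ξ i ≠ 0
    · have h5 := h2 ξ h4 hev
      rw [← coe_aeval_eq_eval] at h5
      change aeval ξ q = 0 at h5
      rw [h5, zero_mul]
    · push Not at h4
      obtain ⟨i, hi⟩ := h4
      rw [Finset.prod_eq_zero (Finset.mem_univ i) (by rw [aeval_X, hi]), mul_zero]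
  rw [vanishingIdeal_zeroLocus_eq_radical, h𝔭.radical] at h3
  rcases h𝔭.mem_or_mem h3 with h4 | h4
  · exact hq h4
  · rw [h𝔭.prod_mem_iff] at h4
    obtain ⟨i, -, hi⟩ := h4
    exact hX i hi

end nullst

variable {d : ℕ} {L : Type} [Field L] [Algebra ℂ L] {g : HypGerm d L}

section pid

variable {n : ℕ} {v : DVal L} {π : L} (hπ : π ≠ 0) (h1 : v.ord π = 1) {y : Fin n → L}
  (hy : ∀ i, y i ≠ 0)

/-- the ideal of the polynomials which vanish at the residues of the normalised coordinates -/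
noncomputable def pid : Ideal (MvPolynomial (Fin n) ℂ) := (mvI v).comap (Ph hπ h1 hy)

theorem mem_pid {q : MvPolynomial (Fin n) ℂ} :
    q ∈ pid hπ h1 hy ↔ v.Pos (Ph hπ h1 hy q : L) := Iff.rfl

theorem pid_prime : (pid hπ h1 hy).IsPrime := Ideal.IsPrime.comap _

theorem X_notMem (i : Fin n) : (X i : MvPolynomial (Fin n) ℂ) ∉ pid hπ h1 hy := by
  intro hi
  rw [mem_pid, Ph_X] at hi
  rcases hi with h3 | h3
  · exact mul_ne_zero (hy i) (zpow_ne_zero _ hπ) h3
  · rw [v.map_mul _ _ (hy i) (zpow_ne_zero _ hπ), v.ord_zpow hπ, h1] at h3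
    omega

theorem mon_notMem (s : Fin n →₀ ℕ) {c : ℂ} (hc : c ≠ 0) : monomial s c ∉ pid hπ h1 hy := by
  intro h
  obtain ⟨ξ, hξ, h2, -⟩ := exists_pt (pid_prime hπ h1 hy) (X_notMem hπ h1 hy)
    (q := 1) (fun h => (pid_prime hπ h1 hy).ne_top ((Ideal.eq_top_iff_one _).2 h))
  have h3 := h2 _ h
  rw [eval_monomial] at h3
  rcases mul_eq_zero.1 h3 with h4 | h4
  · exact hc h4
  · rw [Finsupp.prod, Finset.prod_eq_zero_iff] at h4
    obtain ⟨i, -, hi⟩ := h4
    exact pow_ne_zero _ (hξ i) hi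

/-- the value of a homogeneous polynomial at the normalised coordinates -/
theorem Ph_hom {q : MvPolynomial (Fin n) ℂ} {φ : ℤ}
    (h : ∀ s ∈ q.support, pr (ex s) (wt y v) = φ) :
    (Ph hπ h1 hy q : L) = aeval y q * π ^ (-φ) := by
  conv_lhs => rw [q.as_sum]
  conv_rhs => rw [q.as_sum]
  rw [map_sum, map_sum, Finset.sum_mul]
  push_cast
  refine Finset.sum_congr rfl fun s hs => ?_
  rw [Ph_monomial, h s hs]

include hπ h1 hy in
theorem unit_of {s : Fin n →₀ ℕ} {φ : ℤ} (h : pr (ex s) (wt y v) = φ) :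
    ch y (ex s) * π ^ (-φ) ≠ 0 ∧ v.ord (ch y (ex s) * π ^ (-φ)) = 0 := by
  refine ⟨mul_ne_zero (ch_ne hy _) (zpow_ne_zero _ hπ), ?_⟩
  rw [v.map_mul _ _ (ch_ne hy _) (zpow_ne_zero _ hπ), v.ord_zpow hπ, ord_ch hy, h, h1]
  ring

theorem binom_mem {s t : Fin n →₀ ℕ} {c : ℂ} (h : pr (ex s) (wt y v) = pr (ex t) (wt y v))
    (hc : v.Pos (ch y (ex s - ex t) - algebraMap ℂ L c)) :
    monomial s 1 - monomial t c ∈ pid hπ h1 hy := by
  rw [mem_pid, map_sub]
  have h2 : ((Ph hπ h1 hy (monomial s 1) - Ph hπ h1 hy (monomial t c) : v.O) : L) =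
      (ch y (ex s - ex t) - algebraMap ℂ L c) * (ch y (ex t) * π ^ (-pr (ex t) (wt y v))) := by
    push_cast
    rw [Ph_monomial, Ph_monomial, aeval_mon, aeval_mon, map_one, one_mul, h]
    have h3 : ch y (ex s) = ch y (ex s - ex t) * ch y (ex t) := by
      rw [← ch_add hy, sub_add_cancel]
    rw [h3]
    ring
  rw [h2]
  obtain ⟨h3, h4⟩ := unit_of hπ h1 hy (rfl : pr (ex t) (wt y v) = _)
  exact pos_mul_unit h3 h4 hc

end pid

section count

variable (v : DVal L) {π : L} (hπ : π ≠ 0) (h1 : v.ord π = 1)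

/-- The Jacobian inequality counts the functions which vanish at the residues. -/
theorem jac_count {J : Type} [Fintype J] [DecidableEq J] (x0 : J)
    (p : J → MvPolynomial (Fin (d + 1)) ℂ) (hp0 : ∀ x, p x ≠ 0) (hx0 : p x0 = g.F)
    (hp : ∀ x, x ≠ x0 → lead (wt g.y v) (p x) ∈ pid hπ h1 g.yne)
    (ξ : Fin (d + 1) → ℂ) (hev : ∀ q ∈ pid hπ h1 g.yne, eval ξ q = 0)
    (hli : LinearIndependent ℂ fun (x : J) (i : Fin (d + 1)) =>
      ξ i * eval ξ (pderiv i (lead (wt g.y v) (p x))))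
    (A : Matrix (Fin g.X.d) (Fin g.X.d) L) (hA0 : A.det ≠ 0)
    (hA : ∀ i, Preserves v (∑ j, A i j • g.X.T.D j)) :
    (Fintype.card J : ℤ) ≤ v.ord A.det + 2 + phi (expo g.F) (wt g.y v) := by
  obtain ⟨h2, h3⟩ := jac_core x0 p hp0 hx0 v hπ h1 ξ hev hli A hA0 hA
  have h4 : ∑ x, (if x = x0 then (0 : ℤ) else 1) ≤
      ∑ x, (if x = x0 then 0 else v.ord (aeval g.y (p x)) - phi (expo (p x)) (wt g.y v)) := by
    refine Finset.sum_le_sum fun x _ => ?_
    by_cases hx : x = x0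
    · rw [if_pos hx, if_pos hx]
    · rw [if_neg hx, if_neg hx]
      have h5 := h2 x hx
      obtain ⟨-, h6⟩ := reg_mul_zpow hπ h1 g.yne (phi_expo (hp0 x) (wt g.y v)).2
      rw [← lead_phi (hp0 x)] at h6
      have h7 : v.Pos (aeval g.y (p x) * π ^ (-phi (expo (p x)) (wt g.y v))) := by
        have h8 := v.pos_add h6 (hp x hx)
        rwa [sub_add_cancel] at h8
      rcases h7 with h7 | h7
      · exact absurd h7 (mul_ne_zero h5 (zpow_ne_zero _ hπ))
      · rw [v.map_mul _ _ h5 (zpow_ne_zero _ hπ), v.ord_zpow hπ, h1] at h7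
        omega
  have h5 : ∑ x, (if x = x0 then (0 : ℤ) else 1) = Fintype.card J - 1 := by
    rw [Finset.sum_ite, Finset.sum_const_zero, zero_add, Finset.sum_const, Finset.filter_ne',
      Finset.card_erase_of_mem (Finset.mem_univ _), Finset.card_univ]
    have : 0 < Fintype.card J := Fintype.card_pos_iff.2 ⟨x0⟩
    simp
    omega
  omega

end count

end Pool.Agent.K9h50.NH
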