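import Mathlib
import Pool.Agent.K9h50.LS.A

/-!
# Lower bounds for log discrepancies over arbitrary points, II
-/

set_option autoImplicit false
set_option linter.unusedSectionVars false

namespace Pool.Agent.K9h50.NH

open Pool.Agent.H436R3.Fol hiding ex
open Pool.Agent.H436R3.KT Pool.Agent.W497.Mld MvPolynomial
open Pool.Agent.TH165.ACC (pr ex Prim Cn Hs lead part mldsR mvI mem_mvI ord_eq_zero_of_notMem
  lead_eq coeff_part pr_add pr_zero pr_neg pr_sub pr_smul pr_smul_right ex_add ex_inj exists_minor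
  euler_part support_euler coeff_euler exists_nat_ex DualVec)
open Pool.Agent.Helper43K9.NH

section defs

variable {n N : ℕ}

/-- the exponents which vanish on the rays in `T` -/
def TP (E : Fin N → Fin n → ℤ) (T : Finset (Fin N)) : Submodule ℤ (Fin n → ℤ) where
  carrier := {m | ∀ i ∈ T, pr m (E i) = 0}
  add_mem' := fun {a b} ha hb i hi => by
    rw [pr_add, ha i hi, hb i hi, add_zero]
  zero_mem' := fun i _ => pr_zero _
  smul_mem' := fun k a ha i hi => by
    rw [pr_smul, ha i hi, mul_zero]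

theorem mem_TP {E : Fin N → Fin n → ℤ} {T : Finset (Fin N)} {m : Fin n → ℤ} :
    m ∈ TP E T ↔ ∀ i ∈ T, pr m (E i) = 0 := Iff.rfl

open Classical in
/-- the part of `q` with exponents in the class of `s0` modulo `P` -/
noncomputable def cls (P : Submodule ℤ (Fin n → ℤ)) (s0 : Fin n →₀ ℕ)
    (q : MvPolynomial (Fin n) ℂ) : MvPolynomial (Fin n) ℂ :=
  ∑ s ∈ q.support with ex s - ex s0 ∈ P, monomial s (q.coeff s)

open Classical in
theorem coeff_cls (P : Submodule ℤ (Fin n → ℤ)) (s0 : Fin n →₀ ℕ)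
    (q : MvPolynomial (Fin n) ℂ) (s : Fin n →₀ ℕ) :
    (cls P s0 q).coeff s = if ex s - ex s0 ∈ P then q.coeff s else 0 := by
  rw [cls, coeff_sum]
  simp only [coeff_monomial]
  rw [Finset.sum_ite_eq']
  simp only [Finset.mem_filter, mem_support_iff]
  by_cases h : q.coeff s = 0
  · simp [h]
  · simp [h]

/-- the pairing of a complex vector with an integral one -/
def prC (z : Fin n → ℂ) (u : Fin n → ℤ) : ℂ := ∑ i, z i * (u i : ℂ)

/-- the logarithmic gradient -/
noncomputable def gr (ξ : Fin n → ℂ) (q : MvPolynomial (Fin n) ℂ) : Fin n → ℂ :=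
  fun i => ξ i * eval ξ (pderiv i q)

/-- the logarithmic derivative in the direction of `u` -/
noncomputable def Du (u : Fin n → ℤ) (q : MvPolynomial (Fin n) ℂ) : MvPolynomial (Fin n) ℂ :=
  ∑ i, C (u i : ℂ) * (X i * pderiv i q)

theorem coeff_Du (u : Fin n → ℤ) (q : MvPolynomial (Fin n) ℂ) (s : Fin n →₀ ℕ) :
    (Du u q).coeff s = (pr (ex s) u : ℂ) * q.coeff s := by
  rw [Du, coeff_sum]
  simp only [coeff_C_mul, coeff_euler]
  rw [pr]
  push_cast
  rw [Finset.sum_mul]
  refine Finset.sum_congr rfl fun i _ => ?_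
  simp only [Pool.Agent.TH165.ACC.ex]
  push_cast
  ring

theorem eval_Du (u : Fin n → ℤ) (q : MvPolynomial (Fin n) ℂ) (ξ : Fin n → ℂ) :
    eval ξ (Du u q) = prC (gr ξ q) u := by
  rw [Du, map_sum, prC]
  refine Finset.sum_congr rfl fun i _ => ?_
  rw [map_mul, map_mul, eval_C, eval_X, gr]
  ring

theorem prC_add (z z' : Fin n → ℂ) (u : Fin n → ℤ) : prC (z + z') u = prC z u + prC z' u := by
  simp only [prC, Pi.add_apply, add_mul, Finset.sum_add_distrib]

theorem prC_smul (c : ℂ) (z : Fin n → ℂ) (u : Fin n → ℤ) : prC (c • z) u = c * prC z u := by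
  simp only [prC, Pi.smul_apply, smul_eq_mul, Finset.mul_sum, mul_assoc]

theorem prC_zero (u : Fin n → ℤ) : prC 0 u = 0 := by simp [prC]

theorem prC_sum {ι : Type} (s : Finset ι) (z : ι → Fin n → ℂ) (u : Fin n → ℤ) :
    prC (∑ i ∈ s, z i) u = ∑ i ∈ s, prC (z i) u := by
  classical
  induction s using Finset.induction_on with
  | empty => simp [prC_zero]
  | insert a s ha ih => rw [Finset.sum_insert ha, Finset.sum_insert ha, prC_add, ih]

theorem prC_cast (m u : Fin n → ℤ) : prC (fun i => (m i : ℂ)) u = (pr m u : ℂ) := by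
  rw [prC, pr]
  push_cast
  rfl

theorem prC_span {J : Type} {z : J → Fin n → ℂ} {u : Fin n → ℤ} (h : ∀ j, prC (z j) u = 0)
    {x : Fin n → ℂ} (hx : x ∈ Submodule.span ℂ (Set.range z)) : prC x u = 0 := by
  induction hx using Submodule.span_induction with
  | mem x hx => obtain ⟨j, rfl⟩ := hx; exact h j
  | zero => exact prC_zero u
  | add x y _ _ hx hy => rw [prC_add, hx, hy, add_zero]
  | smul c x _ hx => rw [prC_smul, hx, mul_zero]

theorem pr_comm (m u : Fin n → ℤ) : pr m u = pr u m := by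
  simp only [pr, mul_comm]

theorem lead_hom {q : MvPolynomial (Fin n) ℂ} {w : Fin n → ℤ} {φ : ℤ}
    (h : ∀ s ∈ q.support, pr (ex s) w = φ) : lead w q = q := by
  by_cases hq : q = 0
  · subst hq
    simp [Pool.Agent.TH165.ACC.lead]
  obtain ⟨⟨t, ht, h1⟩, -⟩ := phi_expo hq w
  rw [lead_phi hq]
  ext s
  rw [coeff_part]
  by_cases hs : s ∈ q.support
  · rw [if_pos]
    rw [h1, h s hs, h t ht]
  · rw [notMem_support_iff.1 hs]
    simp

end defs

section li

variable {n k : ℕ} {m : Fin k → Fin n → ℤ} {D : ℤ}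

/-- linear independence from dual vectors -/
theorem li_dual (hD : DualVec m D) {a : Fin k → ℂ} (ha : ∀ j, a j ≠ 0) :
    LinearIndependent ℂ fun j i => a j * (m j i : ℂ) := by
  rw [Fintype.linearIndependent_iff]
  intro c hc i
  obtain ⟨hD0, hD⟩ := hD
  obtain ⟨Q, hQ⟩ := hD i
  have h1 : prC (∑ j, c j • fun i => a j * (m j i : ℂ)) Q = c i * a i * D := by
    rw [prC_sum, Finset.sum_eq_single i]
    · rw [prC_smul]
      have h2 : (fun l => a i * (m i l : ℂ)) = a i • fun l => (m i l : ℂ) := rfl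
      rw [h2, prC_smul, prC_cast, pr_comm, hQ, if_pos rfl]
      ring
    · intro j _ hj
      rw [prC_smul]
      have h2 : (fun l => a j * (m j l : ℂ)) = a j • fun l => (m j l : ℂ) := rfl
      rw [h2, prC_smul, prC_cast, pr_comm, hQ, if_neg hj]
      simp
    · intro h; exact absurd (Finset.mem_univ _) h
  rw [hc, prC_zero] at h1
  have h2 : (D : ℂ) ≠ 0 := by exact_mod_cast hD0.ne'
  have h3 := h1.symm
  rcases mul_eq_zero.1 h3 with h4 | h4
  · rcases mul_eq_zero.1 h4 with h5 | h5
    · exact h5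
    · exact absurd h5 (ha i)
  · exact absurd h4 h2

/-- exchange -/
theorem exchange {m : Fin (k + 1) → Fin n → ℤ} (hD : DualVec m D) {a : Fin (k + 1) → ℂ}
    (ha : ∀ j, a j ≠ 0) {z : Fin n → ℂ} (hz : z ≠ 0) :
    ∃ j0 : Fin (k + 1), z ∉ Submodule.span ℂ (Set.range fun (j : Fin k) (i : Fin n) =>
      a (j0.succAbove j) * (m (j0.succAbove j) i : ℂ)) := by
  by_contra hcon
  push Not at hcon
  apply hz
  obtain ⟨hD0, hD⟩ := hD
  choose Q hQ using hD
  have hval : ∀ j i, prC (fun l => a j * (m j l : ℂ)) (Q i) = if j = i then a j * D else 0 := by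
    intro j i
    have h2 : (fun l => a j * (m j l : ℂ)) = a j • fun l => (m j l : ℂ) := rfl
    rw [h2, prC_smul, prC_cast, pr_comm, hQ]
    split_ifs <;> simp
  have h1 : ∀ i, prC z (Q i) = 0 := by
    intro i
    refine prC_span (fun j => ?_) (hcon i)
    rw [hval, if_neg (Fin.succAbove_ne i j)]
  obtain ⟨c, hc⟩ := (Submodule.mem_span_range_iff_exists_fun ℂ).1 (hcon 0)
  have h2 : ∀ j, c j = 0 := by
    intro j
    have h3 := h1 ((0 : Fin (k + 1)).succAbove j)
    rw [← hc, prC_sum, Finset.sum_eq_single j] at h3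
    · rw [prC_smul, hval, if_pos rfl] at h3
      have h4 : (D : ℂ) ≠ 0 := by exact_mod_cast hD0.ne'
      exact (mul_eq_zero.1 h3).resolve_right (mul_ne_zero (ha _) h4)
    · intro j' _ hj'
      rw [prC_smul, hval, if_neg, mul_zero]
      intro h
      exact hj' (Fin.succAbove_right_injective h)
    · intro h; exact absurd (Finset.mem_univ _) h
  rw [← hc]
  exact Finset.sum_eq_zero fun j _ => by rw [h2 j, zero_smul]

end li

variable {d : ℕ} {L : Type} [Field L] [Algebra ℂ L] {g : HypGerm d L}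

theorem ord_of_res {v : DVal L} {f : L} {c : ℂ} (hc : c ≠ 0)
    (h : v.Pos (f - algebraMap ℂ L c)) : f ≠ 0 ∧ v.ord f = 0 := by
  have h1 : ¬ v.Pos (algebraMap ℂ L c) := by
    rintro (h2 | h2)
    · rw [map_eq_zero] at h2
      exact hc h2
    · rw [v.const _ hc] at h2
      exact lt_irrefl _ h2
  have h2 : ¬ v.Pos f := by
    intro h3
    apply h1
    have h4 := v.pos_add h3 (pos_neg' h)
    convert h4 using 1
    ring
  have h3 : v.Reg f := by
    have h4 := v.reg_add (reg_of_pos h) (v.reg_const c)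
    rwa [sub_add_cancel] at h4
  have h4 : f ≠ 0 := fun h5 => h2 (Or.inl h5)
  refine ⟨h4, ?_⟩
  have h5 := v.ord_nonneg h4 h3
  by_contra h6
  exact h2 (Or.inr (by omega))

section low

variable {T : Finset (Fin g.N)} {v : DVal L} {π : L} (hπ : π ≠ 0) (h1 : v.ord π = 1)

theorem lead_F_mem : lead (wt g.y v) g.F ∈ pid hπ h1 g.yne := by
  obtain ⟨-, h2⟩ := reg_mul_zpow hπ h1 g.yne (phi_expo g.Fne (wt g.y v)).2
  rw [← lead_phi g.Fne, F_zero, zero_mul, zero_sub] at h2
  rw [mem_pid]
  have := pos_neg' h2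
  rwa [neg_neg] at this

/-- a homogeneous polynomial in the ideal, with exponents in different classes, whose gradient is
not orthogonal to the rays in `T` -/
theorem exists_r {φ : ℤ} (T : Finset (Fin g.N)) :
    ∀ (N : ℕ) (r : MvPolynomial (Fin (d + 1)) ℂ), r.support.card ≤ N → r ≠ 0 →
      r ∈ pid hπ h1 g.yne → (∀ s ∈ r.support, pr (ex s) (wt g.y v) = φ) →
      (∀ s ∈ r.support, ∀ t ∈ r.support, s ≠ t → ex s - ex t ∉ TP g.E T) →
      ∃ r' : MvPolynomial (Fin (d + 1)) ℂ, r' ≠ 0 ∧ r' ∈ pid hπ h1 g.yne ∧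
        (∀ s ∈ r'.support, pr (ex s) (wt g.y v) = φ) ∧
        ∃ ξ : Fin (d + 1) → ℂ, (∀ i, ξ i ≠ 0) ∧ (∀ q ∈ pid hπ h1 g.yne, eval ξ q = 0) ∧
          ∃ i ∈ T, prC (gr ξ r') (g.E i) ≠ 0 := by
  intro N
  induction N with
  | zero =>
    intro r hr h0
    exfalso
    apply h0
    rw [Nat.le_zero, Finset.card_eq_zero, support_eq_empty] at hr
    exact hr
  | succ N ih =>
    intro r hr h0 hmem hhom hcl
    by_cases hex : ∃ ξ : Fin (d + 1) → ℂ, (∀ i, ξ i ≠ 0) ∧
        (∀ q ∈ pid hπ h1 g.yne, eval ξ q = 0) ∧ ∃ i ∈ T, prC (gr ξ r) (g.E i) ≠ 0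
    · exact ⟨r, h0, hmem, hhom, hex⟩
    push Not at hex
    have hDu : ∀ i ∈ T, Du (g.E i) r ∈ pid hπ h1 g.yne := by
      intro i hi
      by_contra h2
      obtain ⟨ξ, hξ, hξ2, hξ3⟩ := exists_pt (pid_prime hπ h1 g.yne) (X_notMem hπ h1 g.yne) h2
      apply hξ3
      rw [eval_Du]
      exact hex ξ hξ hξ2 i hi
    obtain ⟨s1, hs1⟩ : r.support.Nonempty := by
      rwa [Finset.nonempty_iff_ne_empty, Ne, support_eq_empty]
    obtain ⟨s2, hs2, h12⟩ : ∃ s2 ∈ r.support, s1 ≠ s2 := by
      by_contra h2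
      push Not at h2
      have h3 : r = monomial s1 (r.coeff s1) := by
        ext t
        rw [coeff_monomial]
        by_cases ht : s1 = t
        · rw [if_pos ht, ht]
        · rw [if_neg ht]
          by_contra h4
          exact ht (h2 t (mem_support_iff.2 h4))
      apply mon_notMem hπ h1 g.yne s1 (mem_support_iff.1 hs1)
      rw [← h3]
      exact hmem
    have h3 := hcl s1 hs1 s2 hs2 h12
    rw [mem_TP] at h3
    push Not at h3
    obtain ⟨i, hi, h4⟩ := h3
    set r' : MvPolynomial (Fin (d + 1)) ℂ :=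
      Du (g.E i) r - C (pr (ex s1) (g.E i) : ℂ) * r with hr'
    have hco : ∀ s, r'.coeff s = ((pr (ex s) (g.E i) : ℂ) - (pr (ex s1) (g.E i) : ℂ)) *
        r.coeff s := by
      intro s
      rw [hr', coeff_sub, coeff_Du, coeff_C_mul]
      ring
    have hsub : r'.support ⊆ r.support.erase s1 := by
      intro s hs
      rw [mem_support_iff, hco] at hs
      rw [Finset.mem_erase, mem_support_iff]
      refine ⟨?_, right_ne_zero_of_mul hs⟩
      rintro rfl
      apply hs
      ring
    have h5 : r' ≠ 0 := by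
      intro h6
      have h7 := hco s2
      rw [h6, coeff_zero] at h7
      rcases mul_eq_zero.1 h7.symm with h8 | h8
      · apply h4
        rw [pr_sub]
        have h9 : (pr (ex s2) (g.E i) : ℂ) = (pr (ex s1) (g.E i) : ℂ) := sub_eq_zero.1 h8
        have h10 : pr (ex s2) (g.E i) = pr (ex s1) (g.E i) := by exact_mod_cast h9
        rw [h10, sub_self]
      · exact (mem_support_iff.1 hs2) h8
    refine ih r' ?_ h5 ?_ ?_ ?_
    · have h6 := Finset.card_le_card hsub
      rw [Finset.card_erase_of_mem hs1] at h6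
      omega
    · exact Ideal.sub_mem _ (hDu i hi) (Ideal.mul_mem_left _ _ hmem)
    · intro s hs
      exact hhom s (Finset.mem_of_mem_erase (hsub hs))
    · intro s hs t ht
      exact hcl s (Finset.mem_of_mem_erase (hsub hs)) t (Finset.mem_of_mem_erase (hsub ht))

/-- reduction modulo the residues of the characters -/
theorem exists_r0 {q : MvPolynomial (Fin (d + 1)) ℂ} {φ : ℤ}
    (hc : ∀ m ∈ TP g.E T, ∃ c : ℂ, c ≠ 0 ∧ v.Pos (ch g.y m - algebraMap ℂ L c))
    (hq : q ∈ pid hπ h1 g.yne) (hhom : ∀ s ∈ q.support, pr (ex s) (wt g.y v) = φ)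
    {s0 : Fin (d + 1) →₀ ℕ} (hs0 : cls (TP g.E T) s0 q ∉ pid hπ h1 g.yne) :
    ∃ r : MvPolynomial (Fin (d + 1)) ℂ, r ≠ 0 ∧ r ∈ pid hπ h1 g.yne ∧
      (∀ s ∈ r.support, pr (ex s) (wt g.y v) = φ) ∧
      ∀ s ∈ r.support, ∀ t ∈ r.support, s ≠ t → ex s - ex t ∉ TP g.E T := by
  classical
  let S : Setoid (Fin (d + 1) →₀ ℕ) :=
    { r := fun s t => ex s - ex t ∈ TP g.E T
      iseqv :=
        { refl := fun s => by
            change ex s - ex s ∈ TP g.E T
            rw [sub_self]; exact Submodule.zero_mem _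
          symm := fun {s t} h => by
            have h' : ex s - ex t ∈ TP g.E T := h
            have := Submodule.neg_mem _ h'
            change ex t - ex s ∈ TP g.E T
            rwa [neg_sub] at this
          trans := fun {s t r} h h' => by
            have h1' : ex s - ex t ∈ TP g.E T := h
            have h2' : ex t - ex r ∈ TP g.E T := h'
            have := Submodule.add_mem _ h1' h2'
            change ex s - ex r ∈ TP g.E T
            rwa [sub_add_sub_cancel] at this } }
  let rep : (Fin (d + 1) →₀ ℕ) → (Fin (d + 1) →₀ ℕ) := fun s => (Quotient.mk S s).out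
  have hrep : ∀ s, ex s - ex (rep s) ∈ TP g.E T := by
    intro s
    have h2 : S (rep s) s := Quotient.exact (Quotient.out_eq (Quotient.mk S s))
    exact S.symm h2
  have hrep_eq : ∀ s t, ex s - ex t ∈ TP g.E T → rep s = rep t := by
    intro s t h
    have h2 : Quotient.mk S s = Quotient.mk S t := Quotient.sound h
    simp only [rep, h2]
  have hw0 : ∀ m ∈ TP g.E T, pr m (wt g.y v) = 0 := by
    intro m hm
    obtain ⟨c, hc0, hc1⟩ := hc m hm
    rw [← ord_ch g.yne]
    exact (ord_of_res hc0 hc1).2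
  choose c hc0 hcp using fun s => hc _ (hrep s)
  have hbin : ∀ s, monomial s 1 - monomial (rep s) (c s) ∈ pid hπ h1 g.yne := by
    intro s
    refine binom_mem hπ h1 g.yne ?_ (hcp s)
    have := hw0 _ (hrep s)
    rw [pr_sub] at this
    omega
  have hbin' : ∀ s (a : ℂ), monomial s a - monomial (rep s) (a * c s) ∈ pid hπ h1 g.yne := by
    intro s a
    have h2 := Ideal.mul_mem_left _ (C a) (hbin s)
    rwa [mul_sub, C_mul_monomial, C_mul_monomial, mul_one] at h2
  let r : MvPolynomial (Fin (d + 1)) ℂ :=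
    ∑ s ∈ q.support, monomial (rep s) (q.coeff s * c s)
  have hrq : q - r ∈ pid hπ h1 g.yne := by
    have h2 : q - r = ∑ s ∈ q.support,
        (monomial s (q.coeff s) - monomial (rep s) (q.coeff s * c s)) := by
      rw [Finset.sum_sub_distrib]
      congr 1
      exact q.as_sum
    rw [h2]
    exact Ideal.sum_mem _ fun s _ => hbin' s _
  have hrmem : r ∈ pid hπ h1 g.yne := by
    have h2 := Ideal.sub_mem _ hq hrq
    rwa [sub_sub_cancel] at h2
  have hsupp : ∀ t ∈ r.support, ∃ s ∈ q.support, rep s = t := by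
    intro t ht
    by_contra h2
    push Not at h2
    apply mem_support_iff.1 ht
    simp only [r]
    rw [coeff_sum]
    refine Finset.sum_eq_zero fun s hs => ?_
    rw [coeff_monomial, if_neg (h2 s hs)]
  refine ⟨r, ?_, hrmem, ?_, ?_⟩
  · intro hr0
    apply hs0
    have h2 : (∑ s ∈ q.support with rep s = rep s0, q.coeff s * c s) = 0 := by
      have h3 : r.coeff (rep s0) = ∑ s ∈ q.support with rep s = rep s0, q.coeff s * c s := by
        simp only [r]
        rw [coeff_sum, Finset.sum_filter]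
        refine Finset.sum_congr rfl fun s _ => ?_
        rw [coeff_monomial]
      rw [← h3, hr0, coeff_zero]
    have h3 : cls (TP g.E T) s0 q = ∑ s ∈ q.support with rep s = rep s0,
        (monomial s (q.coeff s) - monomial (rep s) (q.coeff s * c s)) := by
      have h4 : ∑ s ∈ q.support with rep s = rep s0,
          (monomial (rep s) (q.coeff s * c s) : MvPolynomial (Fin (d + 1)) ℂ) = 0 := by
        have h5 : ∑ s ∈ q.support with rep s = rep s0,
            (monomial (rep s) (q.coeff s * c s) : MvPolynomial (Fin (d + 1)) ℂ) =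
            monomial (rep s0) (∑ s ∈ q.support with rep s = rep s0, q.coeff s * c s) := by
          rw [map_sum]
          refine Finset.sum_congr rfl fun s hs => ?_
          rw [(Finset.mem_filter.1 hs).2]
        rw [h5, h2, monomial_zero]
      rw [Finset.sum_sub_distrib, h4, sub_zero, cls]
      congr 1
      ext s
      simp only [Finset.mem_filter]
      refine and_congr_right fun _ => ⟨fun h => hrep_eq _ _ h, fun h => ?_⟩
      have e1 := hrep s
      have e2 := hrep s0
      rw [h] at e1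
      have e3 := Submodule.sub_mem _ e1 e2
      rwa [sub_sub_sub_cancel_right] at e3
    rw [h3]
    exact Ideal.sum_mem _ fun s _ => hbin' s _
  · intro t ht
    obtain ⟨s, hs, rfl⟩ := hsupp t ht
    have := hw0 _ (hrep s)
    rw [pr_sub] at this
    have := hhom s hs
    omega
  · intro t ht t' ht' hne hcon
    obtain ⟨s, hs, rfl⟩ := hsupp t ht
    obtain ⟨s', hs', rfl⟩ := hsupp t' ht'
    apply hne
    apply hrep_eq
    have e1 := hrep s
    have e2 := hrep s'
    have e3 := Submodule.sub_mem _ (Submodule.add_mem _ e1 hcon) e2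
    convert e3 using 1
    abel

end low

end Pool.Agent.K9h50.NH
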