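import Mathlib
import Pool.Agent.K9h50.LS.B

/-!
# Lower bounds for log discrepancies over arbitrary points, III
-/

set_option autoImplicit false
set_option linter.unusedSectionVars false

namespace Pool.Agent.K9h50.NH

open Pool.Agent.H436R3.Fol hiding ex
open Pool.Agent.H436R3.KT Pool.Agent.W497.Mld MvPolynomial
open Pool.Agent.TH165.ACC (pr ex Prim Cn Hs lead part mldsR mvI mem_mvI ord_eq_zero_of_notMem
  lead_eq coeff_part pr_add pr_zero pr_neg pr_sub pr_smul pr_smul_right ex_add ex_inj exists_minor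
  euler_part support_euler coeff_euler exists_nat_ex DualVec)
open Pool.Agent.Helper43K9.NH

variable {d : ℕ} {L : Type} [Field L] [Algebra ℂ L] {g : HypGerm d L}

theorem gr_ne {n : ℕ} {ξ : Fin n → ℂ} {q : MvPolynomial (Fin n) ℂ} {i : Fin n}
    (hξ : ∀ i, ξ i ≠ 0) (h : eval ξ (pderiv i q) ≠ 0) : gr ξ q ≠ 0 := by
  intro h0
  have h1 := congrFun h0 i
  exact mul_ne_zero (hξ i) h h1

/-- the logarithmic gradient of a binomial at a zero -/
theorem gr_binom {n : ℕ} {ξ : Fin n → ℂ} {s t : Fin n →₀ ℕ} {c : ℂ}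
    (h : eval ξ (monomial s 1 - monomial t c) = 0) :
    gr ξ (monomial s 1 - monomial t c) =
      fun i => eval ξ (monomial s (1 : ℂ)) * ((ex s - ex t) i : ℂ) := by
  funext i
  have h1 : ∀ (r : Fin n →₀ ℕ) (a : ℂ), ξ i * eval ξ (pderiv i (monomial r a)) =
      (r i : ℂ) * eval ξ (monomial r a) := by
    intro r a
    have h2 : X i * pderiv i (monomial r a) = C (r i : ℂ) * monomial r a := by
      ext u
      rw [coeff_euler, coeff_C_mul, coeff_monomial]
      by_cases hr : r = u
      · subst hr; rfl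
      · rw [if_neg hr]; simp
    have h3 := congrArg (eval ξ) h2
    rw [map_mul, map_mul, eval_X, eval_C] at h3
    exact h3
  rw [gr, map_sub, map_sub, mul_sub, h1, h1]
  rw [map_sub, sub_eq_zero] at h
  rw [← h]
  simp only [Pi.sub_apply, Pool.Agent.TH165.ACC.ex]
  push_cast
  ring

/-- **The lower bound** for the canonical order. -/
theorem low_bound {T : Finset (Fin g.N)} {v : DVal L} {π : L} (hπ : π ≠ 0) (h1 : v.ord π = 1)
    {k : ℕ} {m : Fin k → Fin (d + 1) → ℤ} (hm : ∀ j, m j ∈ TP g.E T) {D : ℤ} (hD : DualVec m D)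
    (hc : ∀ m ∈ TP g.E T, ∃ c : ℂ, c ≠ 0 ∧ v.Pos (ch g.y m - algebraMap ℂ L c))
    (hnd : ∀ ξ : Fin (d + 1) → ℂ, (∀ i, ξ i ≠ 0) → (∀ q ∈ pid hπ h1 g.yne, eval ξ q = 0) →
      ∃ i, eval ξ (pderiv i (lead (wt g.y v) g.F)) ≠ 0)
    (A : Matrix (Fin g.X.d) (Fin g.X.d) L) (hA0 : A.det ≠ 0)
    (hA : ∀ i, Preserves v (∑ j, A i j • g.X.T.D j)) :
    (k : ℤ) ≤ v.ord A.det + 1 + phi (expo g.F) (wt g.y v) ∨
    (1 ≤ k ∧ (k : ℤ) - 1 ≤ v.ord A.det + 1 + phi (expo g.F) (wt g.y v) ∧
      ∀ s0, cls (TP g.E T) s0 (lead (wt g.y v) g.F) ∈ pid hπ h1 g.yne) := by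
  classical
  have hw0 : ∀ m ∈ TP g.E T, pr m (wt g.y v) = 0 := by
    intro m hm
    obtain ⟨c, hc0, hc1⟩ := hc m hm
    rw [← ord_ch g.yne]
    exact (ord_of_res hc0 hc1).2
  choose a b hab using fun j => exists_nat_ex (m j)
  choose c hc0 hc1 using fun j => hc (m j) (hm j)
  let p : Fin k → MvPolynomial (Fin (d + 1)) ℂ := fun j => monomial (a j) 1 - monomial (b j) (c j)
  have hpw : ∀ j, pr (ex (a j)) (wt g.y v) = pr (ex (b j)) (wt g.y v) := by
    intro j
    have h2 := hw0 _ (hm j)
    rw [hab, pr_sub] at h2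
    omega
  have hpmem : ∀ j, p j ∈ pid hπ h1 g.yne := by
    intro j
    refine binom_mem hπ h1 g.yne (hpw j) ?_
    rw [← hab]
    exact hc1 j
  have hab_ne : ∀ j, a j ≠ b j := by
    intro j h2
    obtain ⟨hD0, hD⟩ := hD
    obtain ⟨Q, hQ⟩ := hD j
    have h3 := hQ j
    rw [if_pos rfl, hab, h2, sub_self, pr_comm, pr_zero] at h3
    omega
  have hpne : ∀ j, p j ≠ 0 := by
    intro j h2
    have h3 : (p j).coeff (a j) = 1 := by
      simp only [p]
      rw [coeff_sub, coeff_monomial, coeff_monomial, if_pos rfl, if_neg (hab_ne j).symm, sub_zero]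
    rw [h2, coeff_zero] at h3
    exact zero_ne_one h3
  have hphom : ∀ j, ∀ s ∈ (p j).support, pr (ex s) (wt g.y v) = pr (ex (b j)) (wt g.y v) := by
    intro j s hs
    have h2 : s = a j ∨ s = b j := by
      by_contra h3
      push Not at h3
      apply mem_support_iff.1 hs
      simp only [p]
      rw [coeff_sub, coeff_monomial, coeff_monomial, if_neg h3.1.symm, if_neg h3.2.symm, sub_zero]
    rcases h2 with rfl | rfl
    · exact hpw j
    · rfl
  have hplead : ∀ j, lead (wt g.y v) (p j) = p j := fun j => lead_hom (hphom j)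
  have hFlead := lead_F_mem (g := g) hπ h1
  -- the gradients
  have hgr : ∀ (ξ : Fin (d + 1) → ℂ), (∀ q ∈ pid hπ h1 g.yne, eval ξ q = 0) → ∀ j,
      gr ξ (p j) = fun i => eval ξ (monomial (a j) (1 : ℂ)) * (m j i : ℂ) := by
    intro ξ hξ j
    have h2 := gr_binom (hξ _ (hpmem j))
    rw [← hab] at h2
    exact h2
  have hev : ∀ (ξ : Fin (d + 1) → ℂ), (∀ i, ξ i ≠ 0) → ∀ j,
      eval ξ (monomial (a j) (1 : ℂ)) ≠ 0 := by
    intro ξ hξ j
    rw [eval_monomial, one_mul, Finsupp.prod]
    exact Finset.prod_ne_zero_iff.2 fun i _ => pow_ne_zero _ (hξ i)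
  have hgrE : ∀ (ξ : Fin (d + 1) → ℂ), (∀ q ∈ pid hπ h1 g.yne, eval ξ q = 0) → ∀ j, ∀ i ∈ T,
      prC (gr ξ (p j)) (g.E i) = 0 := by
    intro ξ hξ j i hi
    rw [hgr ξ hξ j]
    have h2 : (fun l => eval ξ (monomial (a j) (1 : ℂ)) * (m j l : ℂ)) =
      eval ξ (monomial (a j) (1 : ℂ)) • fun l => (m j l : ℂ) := rfl
    rw [h2, prC_smul, prC_cast, (mem_TP.1 (hm j)) i hi]
    simp
  by_cases hA1 : ∃ ξ : Fin (d + 1) → ℂ, (∀ i, ξ i ≠ 0) ∧ (∀ q ∈ pid hπ h1 g.yne, eval ξ q = 0) ∧
      ∃ i ∈ T, prC (gr ξ (lead (wt g.y v) g.F)) (g.E i) ≠ 0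
  · left
    obtain ⟨ξ, hξ, hξ2, i, hi, hi2⟩ := hA1
    have key := jac_count (g := g) v hπ h1 (J := Option (Fin k)) none
      (fun x => x.elim g.F p) (by rintro (_ | j); exacts [g.Fne, hpne j]) rfl
      (by
        rintro (_ | j) hx
        · exact absurd rfl hx
        · change lead (wt g.y v) (p j) ∈ _
          rw [hplead]
          exact hpmem j) ξ hξ2 (by
        rw [linearIndependent_option]
        constructor
        · have h2 : (fun (x : Option (Fin k)) (i : Fin (d + 1)) => ξ i * eval ξ (pderiv i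
              (lead (wt g.y v) (x.elim g.F p)))) ∘ some = fun j i =>
              eval ξ (monomial (a j) (1 : ℂ)) * (m j i : ℂ) := by
            funext j
            rw [← hgr ξ hξ2 j]
            funext i
            change ξ i * eval ξ (pderiv i (lead (wt g.y v) (p j))) = _
            rw [hplead]
            rfl
          rw [h2]
          exact li_dual hD (hev ξ hξ)
        · intro h2
          apply hi2
          refine prC_span (u := g.E i) (fun j => ?_) h2
          have h3 := hgrE ξ hξ2 j i hi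
          change prC (gr ξ (lead (wt g.y v) (p j))) (g.E i) = 0
          rw [hplead]
          exact h3) A hA0 hA
    rw [Fintype.card_option, Fintype.card_fin] at key
    push_cast at key
    omega
  push Not at hA1
  obtain ⟨ξ0, hξ0, hξ02, -⟩ := exists_pt (pid_prime hπ h1 g.yne) (X_notMem hπ h1 g.yne)
    (q := 1) (fun h => (pid_prime hπ h1 g.yne).ne_top ((Ideal.eq_top_iff_one _).2 h))
  rcases Nat.eq_zero_or_pos k with hk | hk
  · -- no characters
    left
    subst hk
    obtain ⟨i, hi⟩ := hnd ξ0 hξ0 hξ02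
    have key := jac_count (g := g) v hπ h1 (J := Unit) ()
      (fun _ => g.F) (fun _ => g.Fne) rfl (fun x hx => absurd rfl hx) ξ0 hξ02 (by
        rw [linearIndependent_unique_iff]
        exact gr_ne hξ0 hi) A hA0 hA
    rw [Fintype.card_unit] at key
    push_cast at key ⊢
    omega
  obtain ⟨k, rfl⟩ : ∃ k', k = k' + 1 := ⟨k - 1, by omega⟩
  by_cases hcls : ∀ s0, cls (TP g.E T) s0 (lead (wt g.y v) g.F) ∈ pid hπ h1 g.yne
  · right
    obtain ⟨i, hi⟩ := hnd ξ0 hξ0 hξ02
    obtain ⟨j0, hj0⟩ := exchange hD (hev ξ0 hξ0) (gr_ne hξ0 hi)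
    have key := jac_count (g := g) v hπ h1 (J := Option (Fin k)) none
      (fun x => x.elim g.F fun j => p (j0.succAbove j))
      (by rintro (_ | j); exacts [g.Fne, hpne _]) rfl
      (by
        rintro (_ | j) hx
        · exact absurd rfl hx
        · change lead (wt g.y v) (p _) ∈ _
          rw [hplead]
          exact hpmem _) ξ0 hξ02 (by
        have h2 : (fun (x : Option (Fin k)) (i : Fin (d + 1)) => ξ0 i * eval ξ0 (pderiv i
              (lead (wt g.y v) (x.elim g.F fun j => p (j0.succAbove j))))) ∘ some = fun j i =>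
              eval ξ0 (monomial (a (j0.succAbove j)) (1 : ℂ)) * (m (j0.succAbove j) i : ℂ) := by
            funext j
            have h3 := hgr ξ0 hξ02 (j0.succAbove j)
            funext i
            have h4 := congrFun h3 i
            change ξ0 i * eval ξ0 (pderiv i (lead (wt g.y v) (p (j0.succAbove j)))) = _
            rw [hplead]
            exact h4
        rw [linearIndependent_option, h2]
        exact ⟨(li_dual hD (hev ξ0 hξ0)).comp _ Fin.succAbove_right_injective, hj0⟩) A hA0 hA
    rw [Fintype.card_option, Fintype.card_fin] at key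
    push_cast at key
    refine ⟨Nat.le_add_left 1 k, ?_, hcls⟩
    push_cast
    omega
  · left
    push Not at hcls
    obtain ⟨s0, hs0⟩ := hcls
    have hFhom : ∀ s ∈ (lead (wt g.y v) g.F).support,
        pr (ex s) (wt g.y v) = phi (expo g.F) (wt g.y v) := fun s hs =>
      (lead_support g.Fne s hs).2
    obtain ⟨r0, h00, h01, h02, h03⟩ := exists_r0 hπ h1 hc hFlead hFhom hs0
    obtain ⟨r, hr0, hr1, hr2, ξ, hξ, hξ2, i0, hi0, hi1⟩ :=
      exists_r hπ h1 T _ r0 le_rfl h00 h01 h02 h03
    have hrlead : lead (wt g.y v) r = r := lead_hom hr2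
    obtain ⟨i, hi⟩ := hnd ξ hξ hξ2
    obtain ⟨j0, hj0⟩ := exchange hD (hev ξ hξ) (gr_ne hξ hi)
    have key := jac_count (g := g) v hπ h1 (J := Option (Option (Fin k))) (some none)
      (fun x => x.elim r fun z => z.elim g.F fun j => p (j0.succAbove j))
      (by rintro (_ | _ | j); exacts [hr0, g.Fne, hpne _]) rfl
      (by
        rintro (_ | _ | j) hx
        · change lead (wt g.y v) r ∈ _
          rw [hrlead]
          exact hr1
        · exact absurd rfl hx
        · change lead (wt g.y v) (p _) ∈ _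
          rw [hplead]
          exact hpmem _) ξ hξ2 (by
        have h2 : (fun (x : Option (Fin k)) (i : Fin (d + 1)) => ξ i * eval ξ (pderiv i
              (lead (wt g.y v) (x.elim g.F fun j => p (j0.succAbove j))))) ∘ some = fun j i =>
              eval ξ (monomial (a (j0.succAbove j)) (1 : ℂ)) * (m (j0.succAbove j) i : ℂ) := by
            funext j
            have h3 := hgr ξ hξ2 (j0.succAbove j)
            funext i
            have h4 := congrFun h3 i
            change ξ i * eval ξ (pderiv i (lead (wt g.y v) (p (j0.succAbove j)))) = _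
            rw [hplead]
            exact h4
        have h3 : LinearIndependent ℂ (fun (x : Option (Fin k)) (i : Fin (d + 1)) => ξ i *
            eval ξ (pderiv i (lead (wt g.y v) (x.elim g.F fun j => p (j0.succAbove j))))) := by
          rw [linearIndependent_option, h2]
          exact ⟨(li_dual hD (hev ξ hξ)).comp _ Fin.succAbove_right_injective, hj0⟩
        rw [linearIndependent_option]
        refine ⟨h3, fun h4 => hi1 ?_⟩
        have h5 : prC (gr ξ (lead (wt g.y v) r)) (g.E i0) = 0 := by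
          refine prC_span (u := g.E i0) (fun x => ?_) h4
          rcases x with _ | j
          · exact hA1 ξ hξ hξ2 i0 hi0
          · change prC (gr ξ (lead (wt g.y v) (p (j0.succAbove j)))) (g.E i0) = 0
            rw [hplead]
            exact hgrE ξ hξ2 _ i0 hi0
        rwa [hrlead] at h5) A hA0 hA
    rw [Fintype.card_option, Fintype.card_option, Fintype.card_fin] at key
    push_cast at key ⊢
    omega

end Pool.Agent.K9h50.NH
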