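import Mathlib
import Pool.Agent.TH152.AC.Farkas
import Pool.Agent.TH165.ACC.Cara

/-!
# Weights from ordered groups
-/

set_option autoImplicit false
set_option linter.unusedSectionVars false

namespace Pool.Agent.K9h50.NH

open Pool.Agent.TH165.ACC (pr pr_add pr_zero pr_neg pr_sub pr_smul exists_denom)

variable {n : ℕ} {Γ : Type} [LinearOrderedCommGroupWithZero Γ]

theorem val_nsmul {val : (Fin n → ℤ) → Γ} (h0 : val 0 = 1)
    (hadd : ∀ m m', val (m + m') = val m * val m') (k : ℕ) (m : Fin n → ℤ) :
    val (k • m) = val m ^ k := by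
  induction k with
  | zero => rw [zero_smul, h0, pow_zero]
  | succ k ih => rw [succ_nsmul, hadd, ih, pow_succ]

theorem val_sum {val : (Fin n → ℤ) → Γ} (h0 : val 0 = 1)
    (hadd : ∀ m m', val (m + m') = val m * val m') {ι : Type} (s : Finset ι)
    (f : ι → Fin n → ℤ) : val (∑ i ∈ s, f i) = ∏ i ∈ s, val (f i) := by
  classical
  induction s using Finset.induction_on with
  | empty => simp [h0]
  | insert a s ha ih => rw [Finset.sum_insert ha, Finset.prod_insert ha, hadd, ih]

/-- integral weights with the same signs as a homomorphism to an ordered group -/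
theorem exists_weight {val : (Fin n → ℤ) → Γ} (h0 : val 0 = 1)
    (hadd : ∀ m m', val (m + m') = val m * val m') (A B : Finset (Fin n → ℤ))
    (hA : ∀ m ∈ A, val m ≤ 1) (hB : ∀ m ∈ B, val m < 1) :
    ∃ ν : Fin n → ℤ, (∀ m ∈ A, 0 ≤ pr m ν) ∧ ∀ m ∈ B, 0 < pr m ν := by
  classical
  have hAB : ∀ m ∈ A ∪ B, val m ≤ 1 := by
    intro m hm
    rcases Finset.mem_union.1 hm with h | h
    · exact hA m h
    · exact (hB m h).le
  have key : ∀ b ∈ B, ∃ ν : Fin n → ℤ, (∀ m ∈ A ∪ B, 0 ≤ pr m ν) ∧ 0 < pr b ν := by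
    intro b hb
    by_contra hcon
    push Not at hcon
    let ev : (Fin n → ℤ) → ((Fin n → ℚ) →ₗ[ℚ] ℚ) := fun x =>
      ∑ k, (x k : ℚ) • (LinearMap.proj k : (Fin n → ℚ) →ₗ[ℚ] ℚ)
    have hev : ∀ x (q : Fin n → ℚ), ev x q = ∑ k, (x k : ℚ) * q k := by
      intro x q
      simp only [ev]
      rw [LinearMap.sum_apply]
      exact Finset.sum_congr rfl fun k _ => by simp
    let e := (A ∪ B).equivFin
    obtain ⟨w, hw, hwb⟩ := Pool.Agent.TH152.AC.farkas_q (A ∪ B).card
      (fun i => -ev (e.symm i).1) (ev b) (by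
      intro q hq
      obtain ⟨D, hD, hz⟩ := exists_denom q
      choose z hz using hz
      have hD' : (0 : ℚ) < D := by exact_mod_cast hD
      have hk : ∀ x : Fin n → ℤ, (pr x z : ℚ) = D * ev x q := by
        intro x
        rw [hev, Finset.mul_sum, pr]
        push_cast
        exact Finset.sum_congr rfl fun k _ => by rw [← hz k]; ring
      have h1 : pr b z ≤ 0 := by
        apply hcon
        intro m hm
        have h2 := hq (e ⟨m, hm⟩)
        rw [LinearMap.neg_apply, Equiv.symm_apply_apply] at h2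
        have h3 : (0 : ℚ) ≤ pr m z := by
          rw [hk]
          exact mul_nonneg hD'.le (by linarith)
        exact_mod_cast h3
      have h5 : (D : ℚ) * ev b q ≤ 0 := by
        rw [← hk]
        exact_mod_cast h1
      by_contra h6
      push Not at h6
      have := mul_pos hD' h6
      linarith)
    have hsum : ∀ k, (b k : ℚ) + ∑ i, w i * ((e.symm i).1 k : ℚ) = 0 := by
      intro k
      have h1 := hwb (Pi.single k 1)
      have h2 : ∀ x : Fin n → ℤ, ev x (Pi.single k 1) = x k := by
        intro x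
        rw [hev, Finset.sum_eq_single k]
        · simp
        · intro b _ hb
          simp [hb]
        · intro h; exact absurd (Finset.mem_univ _) h
      simp only [LinearMap.neg_apply, h2] at h1
      simp only [mul_neg, Finset.sum_neg_distrib] at h1
      linarith
    obtain ⟨D, hD, hz⟩ := exists_denom w
    choose z hz using hz
    have hD' : (0 : ℚ) < D := by exact_mod_cast hD
    have hz0 : ∀ i, 0 ≤ z i := by
      intro i
      have h1 : (0 : ℚ) ≤ z i := by
        rw [← hz i]
        exact mul_nonneg hD'.le (hw i)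
      exact_mod_cast h1
    obtain ⟨D, rfl⟩ := Int.eq_ofNat_of_zero_le hD.le
    choose N hN using fun i => Int.eq_ofNat_of_zero_le (hz0 i)
    have hrel : D • b + ∑ i, N i • (e.symm i).1 = 0 := by
      funext k
      have h1 : (D : ℚ) * ((b k : ℚ) + ∑ i, w i * ((e.symm i).1 k : ℚ)) = 0 := by
        rw [hsum k, mul_zero]
      rw [mul_add, Finset.mul_sum] at h1
      have h2 : (D : ℚ) * (b k : ℚ) + ∑ i, (N i : ℚ) * ((e.symm i).1 k : ℚ) = 0 := by
        rw [← h1]
        congr 1
        refine Finset.sum_congr rfl fun i _ => ?_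
        rw [← mul_assoc]
        congr 1
        have h3 := hz i
        rw [hN i] at h3
        push_cast at h3
        exact h3.symm
      have h3 : (D : ℤ) * b k + ∑ i, (N i : ℤ) * (e.symm i).1 k = 0 := by exact_mod_cast h2
      simp only [Pi.add_apply, Finset.sum_apply, Pi.smul_apply, nsmul_eq_mul, Pi.zero_apply]
      exact h3
    have h1 := congrArg val hrel
    rw [h0, hadd, val_sum h0 hadd, val_nsmul h0 hadd] at h1
    have hDpos : D ≠ 0 := by
      rintro rfl
      simp at hD
    have h2 : val b ^ D < 1 := pow_lt_one₀ zero_le (hB b hb) hDpos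
    have h3 : ∏ i, val (N i • (e.symm i).1) ≤ 1 := by
      refine Finset.prod_le_one' fun i _ => ?_
      rw [val_nsmul h0 hadd]
      exact pow_le_one' (hAB _ (e.symm i).2) _
    have h4 : val b ^ D * ∏ i, val (N i • (e.symm i).1) ≤ val b ^ D * 1 := mul_le_mul_right h3 _
    rw [h1, mul_one] at h4
    exact absurd h2 (not_lt.2 h4)
  choose! ν hν hν' using key
  have hpr : ∀ m, pr m (∑ b ∈ B, ν b) = ∑ b ∈ B, pr m (ν b) := by
    intro m
    simp only [pr, Finset.sum_apply, Finset.mul_sum]
    rw [Finset.sum_comm]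
  refine ⟨∑ b ∈ B, ν b, fun m hm => ?_, fun m hm => ?_⟩
  · rw [hpr]
    exact Finset.sum_nonneg fun b hb => hν b hb m (Finset.mem_union_left _ hm)
  · rw [hpr]
    exact Finset.sum_pos' (fun b hb => hν b hb m (Finset.mem_union_right _ hm))
      ⟨m, hm, hν' m hm⟩

end Pool.Agent.K9h50.NH
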