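import Mathlib
import Pool.Agent.K9h50.LS.M
import Pool.Agent.K9h50.LS.A

/-!
# Initial forms at the fixed point
-/

set_option autoImplicit false
set_option maxHeartbeats 800000
set_option linter.unusedSectionVars false

namespace Pool.Agent.K9h50.NH

open Pool.Agent.H436R3.Fol hiding ex
open Pool.Agent.H436R3.KT Pool.Agent.W497.Mld MvPolynomial
open Pool.Agent.TH165.ACC (pr ex Prim Cn Hs lead part mldsR mvI mem_mvI ord_eq_zero_of_notMem
  lead_eq coeff_part pr_add pr_zero pr_neg pr_sub pr_smul pr_smul_right ex_add ex_inj exists_minor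
  euler_part support_euler coeff_euler exists_nat_ex DualVec)
open Pool.Agent.Helper43K9.NH

variable {n : ℕ}

theorem ex_zero : (ex (0 : Fin n →₀ ℕ)) = 0 := by
  funext i; simp [Pool.Agent.TH165.ACC.ex]

section submonoid

variable {C : Set (Fin n → ℤ)}

/-- all exponents of `p` are in `k + C` -/
def Shf (C : Set (Fin n → ℤ)) (p : MvPolynomial (Fin n) ℂ) (k : Fin n →₀ ℕ) : Prop :=
  ∀ s ∈ p.support, ex s - ex k ∈ C

theorem Shf.mul (hadd : ∀ a ∈ C, ∀ b ∈ C, a + b ∈ C) (hpt : ∀ a ∈ C, -a ∈ C → a = 0)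
    {p q : MvPolynomial (Fin n) ℂ} {k l : Fin n →₀ ℕ} (hp : Shf C p k) (hq : Shf C q l) :
    Shf C (p * q) (k + l) ∧ (p * q).coeff (k + l) = p.coeff k * q.coeff l := by
  classical
  constructor
  · intro s hs
    have h1 := support_mul p q hs
    rw [Finset.mem_add] at h1
    obtain ⟨a, ha, b, hb, rfl⟩ := h1
    have h2 := hadd _ (hp a ha) _ (hq b hb)
    rw [ex_add, ex_add]
    convert h2 using 1
    abel
  · rw [coeff_mul]
    rw [Finset.sum_eq_single (k, l)]
    · rintro ⟨a, b⟩ hab hne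
      rw [Finset.HasAntidiagonal.mem_antidiagonal] at hab
      by_contra h0
      have ha : a ∈ p.support := mem_support_iff.2 (left_ne_zero_of_mul h0)
      have hb : b ∈ q.support := mem_support_iff.2 (right_ne_zero_of_mul h0)
      have h1 := hp a ha
      have h2 := hq b hb
      have h3 : ex a - ex k = -(ex b - ex l) := by
        have h4 := congrArg ex hab
        rw [ex_add, ex_add] at h4
        have : ex a = ex k + ex l - ex b := by rw [← h4]; abel
        rw [this]; abel
      have h4 := hpt _ h1 (by rw [h3, neg_neg]; exact h2)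
      have h5 : a = k := ex_inj (sub_eq_zero.1 h4)
      subst h5
      have h6 : b = l := add_left_cancel hab
      subst h6
      exact hne rfl
    · intro h
      exfalso
      apply h
      rw [Finset.HasAntidiagonal.mem_antidiagonal]

theorem Shf.addShift {p q : MvPolynomial (Fin n) ℂ} {k l : Fin n →₀ ℕ} (hp : Shf C p k)
    (hq : Shf C q l) : Shf C (p * monomial l 1 + q * monomial k 1) (k + l) ∧
      (p * monomial l 1 + q * monomial k 1).coeff (k + l) = p.coeff k + q.coeff l := by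
  classical
  constructor
  · intro s hs
    rcases Finset.mem_union.1 (support_add hs) with h | h
    · have h1 := support_mul _ _ h
      rw [Finset.mem_add] at h1
      obtain ⟨a, ha, b, hb, rfl⟩ := h1
      have hb' := support_monomial_subset hb
      rw [Finset.mem_singleton] at hb'
      subst hb'
      have h2 := hp a ha
      rw [ex_add, ex_add]
      convert h2 using 1
      abel
    · have h1 := support_mul _ _ h
      rw [Finset.mem_add] at h1
      obtain ⟨a, ha, b, hb, rfl⟩ := h1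
      have hb' := support_monomial_subset hb
      rw [Finset.mem_singleton] at hb'
      subst hb'
      have h2 := hq a ha
      rw [ex_add, ex_add]
      convert h2 using 1
      abel
  · rw [coeff_add, coeff_mul_monomial, mul_one, add_comm k l, coeff_mul_monomial, mul_one]

/-- the polynomials with a constant term, up to monomials -/
def S0 (hC0 : (0 : Fin n → ℤ) ∈ C) (hadd : ∀ a ∈ C, ∀ b ∈ C, a + b ∈ C)
    (hpt : ∀ a ∈ C, -a ∈ C → a = 0) : Submonoid (MvPolynomial (Fin n) ℂ) where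
  carrier := {p | ∃ k, p.coeff k ≠ 0 ∧ Shf C p k}
  one_mem' := by
    classical
    refine ⟨0, ?_, ?_⟩
    · rw [coeff_zero_one]
      exact one_ne_zero
    · intro s hs
      rw [mem_support_iff, coeff_one] at hs
      have : s = 0 := by
        by_contra h
        exact hs (if_neg (Ne.symm h))
      rw [this, sub_self]
      exact hC0
  mul_mem' := by
    rintro p q ⟨k, hk, hp⟩ ⟨l, hl, hq⟩
    obtain ⟨h1, h2⟩ := hp.mul hadd hpt hq
    exact ⟨k + l, by rw [h2]; exact mul_ne_zero hk hl, h1⟩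

end submonoid

section laurent

variable {C : Set (Fin n → ℤ)} {K : Type} [Field K] [Algebra ℂ K] {y : Fin n → K}

/-- `f` is a combination of characters in `C`, and `c` is the constant term -/
def RC (C : Set (Fin n → ℤ)) (y : Fin n → K) (f : K) (c : ℂ) : Prop :=
  ∃ (p : MvPolynomial (Fin n) ℂ) (k : Fin n →₀ ℕ), Shf C p k ∧ f * ch y (ex k) = aeval y p ∧
    p.coeff k = c

theorem RC.add (hy : ∀ i, y i ≠ 0) {f f' : K} {c c' : ℂ} (h : RC C y f c) (h' : RC C y f' c') :
    RC C y (f + f') (c + c') := by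
  obtain ⟨p, k, h1, h2, rfl⟩ := h
  obtain ⟨q, l, h1', h2', rfl⟩ := h'
  obtain ⟨h3, h4⟩ := h1.addShift h1'
  refine ⟨_, _, h3, ?_, h4⟩
  rw [map_add, map_mul, map_mul, ← h2, ← h2', ex_add, ch_add hy, ← ch_ex, ← ch_ex]
  ring

theorem RC.mul (hy : ∀ i, y i ≠ 0) (hadd : ∀ a ∈ C, ∀ b ∈ C, a + b ∈ C)
    (hpt : ∀ a ∈ C, -a ∈ C → a = 0) {f f' : K} {c c' : ℂ} (h : RC C y f c) (h' : RC C y f' c') :
    RC C y (f * f') (c * c') := by
  obtain ⟨p, k, h1, h2, rfl⟩ := h
  obtain ⟨q, l, h1', h2', rfl⟩ := h'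
  obtain ⟨h3, h4⟩ := h1.mul hadd hpt h1'
  refine ⟨_, _, h3, ?_, h4⟩
  rw [map_mul, ← h2, ← h2', ex_add, ch_add hy]
  ring

theorem RC.ofC (hC0 : (0 : Fin n → ℤ) ∈ C) (r : ℂ) : RC C y (algebraMap ℂ K r) r := by
  refine ⟨MvPolynomial.C r, 0, ?_, ?_, ?_⟩
  · intro s hs
    classical
    rw [mem_support_iff, coeff_C] at hs
    have : s = 0 := by
      by_contra h
      exact hs (if_neg (Ne.symm h))
    rw [this, sub_self]
    exact hC0
  · rw [aeval_C, ex_zero, ch_zero, mul_one]
  · rw [coeff_C, if_pos rfl]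

theorem RC.ch (hy : ∀ i, y i ≠ 0) {m : Fin n → ℤ} (hm : m ∈ C) (hm0 : m ≠ 0) :
    RC C y (Helper43K9.NH.ch y m) 0 := by
  obtain ⟨s, t, hst⟩ := exists_nat_ex m
  have hne : s ≠ t := by
    rintro rfl
    exact hm0 (by rw [hst, sub_self])
  refine ⟨monomial s 1, t, ?_, ?_, ?_⟩
  · intro u hu
    have hu' := support_monomial_subset hu
    rw [Finset.mem_singleton] at hu'
    rw [hu', ← hst]
    exact hm
  · rw [← ch_ex, ← ch_add hy, hst, sub_add_cancel]
  · rw [coeff_monomial, if_neg hne]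

theorem exists_RC (hy : ∀ i, y i ≠ 0) (hC0 : (0 : Fin n → ℤ) ∈ C)
    (hadd : ∀ a ∈ C, ∀ b ∈ C, a + b ∈ C) (hpt : ∀ a ∈ C, -a ∈ C → a = 0) {f : K}
    (hf : f ∈ AA y C) : ∃ c, RC C y f c := by
  induction hf using Algebra.adjoin_induction with
  | mem x hx =>
    obtain ⟨m, hm, rfl⟩ := hx
    by_cases h0 : m = 0
    · refine ⟨1, ?_⟩
      rw [h0, ch_zero]
      have := RC.ofC (C := C) (y := y) hC0 1
      rwa [map_one] at this
    · exact ⟨0, RC.ch hy hm h0⟩
  | algebraMap r => exact ⟨r, RC.ofC hC0 r⟩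
  | add x z _ _ hx hz =>
    obtain ⟨c, h⟩ := hx
    obtain ⟨c', h'⟩ := hz
    exact ⟨_, h.add hy h'⟩
  | mul x z _ _ hx hz =>
    obtain ⟨c, h⟩ := hx
    obtain ⟨c', h'⟩ := hz
    exact ⟨_, h.mul hy hadd hpt h'⟩

end laurent

end Pool.Agent.K9h50.NH
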