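import Mathlib
import Pool.Agent.K9h50.LS.V

/-!
# Initial forms at the fixed point, II
-/

set_option autoImplicit false
set_option linter.unusedSectionVars false
set_option maxHeartbeats 800000

namespace Pool.Agent.K9h50.NH

open Pool.Agent.H436R3.Fol hiding ex
open Pool.Agent.H436R3.KT Pool.Agent.W497.Mld MvPolynomial
open Pool.Agent.TH165.ACC (pr ex Prim Cn Hs lead part mldsR mvI mem_mvI ord_eq_zero_of_notMem
  lead_eq coeff_part pr_add pr_zero pr_neg pr_sub pr_smul pr_smul_right ex_add ex_inj exists_minor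
  euler_part support_euler coeff_euler exists_nat_ex DualVec)
open Pool.Agent.Helper43K9.NH

variable {n : ℕ}

theorem exists_field {𝔮 : Ideal (MvPolynomial (Fin n) ℂ)} (h𝔮 : 𝔮.IsPrime)
    (hX : ∀ i, (X i : MvPolynomial (Fin n) ℂ) ∉ 𝔮) :
    ∃ (K : Type) (_ : Field K) (_ : Algebra ℂ K) (y : Fin n → K), (∀ i, y i ≠ 0) ∧
      ∀ p, aeval y p = 0 ↔ p ∈ 𝔮 := by
  let A := MvPolynomial (Fin n) ℂ ⧸ 𝔮
  let K := FractionRing A
  let φ : MvPolynomial (Fin n) ℂ →ₐ[ℂ] K :=
    (IsScalarTower.toAlgHom ℂ A K).comp (Ideal.Quotient.mkₐ ℂ 𝔮)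
  let y : Fin n → K := fun i => φ (X i)
  have hφ : aeval y = φ := by
    apply algHom_ext
    intro i
    rw [aeval_X]
  have hker : ∀ p, φ p = 0 ↔ p ∈ 𝔮 := by
    intro p
    change algebraMap A K (Ideal.Quotient.mk 𝔮 p) = 0 ↔ _
    rw [map_eq_zero_iff _ (IsFractionRing.injective A K), Ideal.Quotient.eq_zero_iff_mem]
  refine ⟨K, inferInstance, inferInstance, y, fun i h => hX i ((hker _).1 h), fun p => ?_⟩
  rw [hφ, hker]

theorem exists_valuation {C : Set (Fin n → ℤ)} (hC0 : (0 : Fin n → ℤ) ∈ C)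
    (hadd : ∀ a ∈ C, ∀ b ∈ C, a + b ∈ C) (hpt : ∀ a ∈ C, -a ∈ C → a = 0)
    {K : Type} [Field K] [Algebra ℂ K] {y : Fin n → K} (hy : ∀ i, y i ≠ 0)
    (hdis : ∀ p ∈ S0 hC0 hadd hpt, aeval y p ≠ 0) :
    ∃ V : ValuationSubring K, (∀ c : ℂ, algebraMap ℂ K c ∈ V) ∧
      ∀ m ∈ C, m ≠ 0 → V.valuation (ch y m) < 1 := by
  let A0 : Subring K := (AA y C).toSubring
  let I0 : Ideal A0 := Ideal.span {x | ∃ m ∈ C, m ≠ 0 ∧ (x : K) = ch y m}
  have hRC0 : ∀ c, RC C y 0 c → c = 0 := by
    rintro c ⟨p, k, h1, h2, rfl⟩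
    by_contra h3
    rw [zero_mul] at h2
    exact hdis p ⟨k, h3, h1⟩ h2.symm
  have huniq : ∀ f c c', RC C y f c → RC C y f c' → c = c' := by
    intro f c c' h h'
    have h1 := (RC.ofC (C := C) (y := y) hC0 (-1)).mul hy hadd hpt h'
    have h2 := h.add hy h1
    have h3 : f + algebraMap ℂ K (-1) * f = 0 := by
      rw [map_neg, map_one]; ring
    rw [h3] at h2
    have h4 := hRC0 _ h2
    linear_combination h4
  have hI0 : ∀ x ∈ I0, RC C y (x : K) 0 := by
    intro x hx
    induction hx using Submodule.span_induction with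
    | mem x hx =>
      obtain ⟨m, hm, hm0, hx⟩ := hx
      rw [hx]
      exact RC.ch hy hm hm0
    | zero =>
      have := RC.ofC (C := C) (y := y) hC0 0
      rwa [map_zero] at this
    | add x z _ _ hx hz =>
      have := hx.add hy hz
      rwa [add_zero] at this
    | smul a x _ hx =>
      obtain ⟨c, hc⟩ := exists_RC hy hC0 hadd hpt (f := (a : K)) a.2
      have := hc.mul hy hadd hpt hx
      rw [mul_zero] at this
      exact this
  have htop : I0 ≠ ⊤ := by
    intro h
    have h1 : (1 : A0) ∈ I0 := by rw [h]; exact Submodule.mem_top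
    have h2 := hI0 _ h1
    have h3 := RC.ofC (C := C) (y := y) hC0 1
    rw [map_one] at h3
    exact zero_ne_one (huniq _ _ _ h2 h3)
  obtain ⟨V, hV, hV2⟩ := Ideal.image_subset_nonunits_valuationSubring I0 htop
  refine ⟨V, fun c => hV (Subalgebra.algebraMap_mem (AA y C) c), fun m hm hm0 => ?_⟩
  rw [← ValuationSubring.mem_nonunits_iff]
  apply hV2
  exact ⟨⟨ch y m, ch_mem_AA hm⟩, Ideal.subset_span ⟨m, hm, hm0, rfl⟩, rfl⟩

section residue

variable {K : Type} [Field K] [Algebra ℂ K] {y : Fin n → K} (hy : ∀ i, y i ≠ 0)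
  (V : ValuationSubring K)

/-- the characters which are units -/
noncomputable def M0 : Submodule ℤ (Fin n → ℤ) where
  carrier := {m | V.valuation (ch y m) = 1}
  add_mem' := by
    intro a b ha hb
    change V.valuation (ch y (a + b)) = 1
    rw [ch_add hy, map_mul, ha, hb, one_mul]
  zero_mem' := by
    change V.valuation (ch y 0) = 1
    rw [ch_zero, map_one]
  smul_mem' := by
    intro k a ha
    have ha' : V.valuation (ch y a) = 1 := ha
    change V.valuation (ch y (k • a)) = 1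
    rw [ch_smul hy, map_zpow₀, ha', one_zpow]

theorem mem_M0 {m : Fin n → ℤ} : m ∈ M0 hy V ↔ V.valuation (ch y m) = 1 := Iff.rfl

theorem exists_proj : ∃ ρ : (Fin n → ℤ) →ₗ[ℤ] (Fin n → ℤ), (∀ m, ρ m ∈ M0 hy V) ∧
    ∀ m ∈ M0 hy V, ρ m = m := by
  have htf : Module.IsTorsionFree ℤ ((Fin n → ℤ) ⧸ M0 hy V) := by
    apply Module.IsTorsionFree.of_smul_eq_zero
    intro r x hx
    by_cases hr : r = 0
    · exact Or.inl hr
    right
    obtain ⟨m, rfl⟩ := Submodule.mkQ_surjective _ x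
    rw [← map_smul, Submodule.mkQ_apply, Submodule.Quotient.mk_eq_zero, mem_M0, ch_smul hy,
      map_zpow₀] at hx
    rw [Submodule.mkQ_apply, Submodule.Quotient.mk_eq_zero, mem_M0]
    have h1 : V.valuation (ch y m) ^ r.natAbs = 1 := by
      rcases Int.natAbs_eq r with h2 | h2
      · rw [h2, zpow_natCast] at hx
        exact hx
      · rw [h2, zpow_neg, inv_eq_one, zpow_natCast] at hx
        exact hx
    exact (pow_eq_one_iff.1 h1).resolve_right (Int.natAbs_ne_zero.2 hr)
  have hfree : Module.Free ℤ ((Fin n → ℤ) ⧸ M0 hy V) := Module.free_of_finite_type_torsion_free'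
  obtain ⟨σ, hσ⟩ := (M0 hy V).mkQ.exists_rightInverse_of_surjective
    (LinearMap.range_eq_top.2 (Submodule.mkQ_surjective _))
  refine ⟨LinearMap.id - σ.comp (M0 hy V).mkQ, fun m => ?_, fun m hm => ?_⟩
  · rw [← Submodule.Quotient.mk_eq_zero, ← Submodule.mkQ_apply, LinearMap.sub_apply, map_sub,
      LinearMap.id_apply, LinearMap.comp_apply]
    have h2 := LinearMap.congr_fun hσ ((M0 hy V).mkQ m)
    rw [LinearMap.comp_apply, LinearMap.id_apply] at h2
    rw [h2, sub_self]
  · have h2 : (M0 hy V).mkQ m = 0 := by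
      rw [Submodule.mkQ_apply, Submodule.Quotient.mk_eq_zero]
      exact hm
    rw [LinearMap.sub_apply, LinearMap.id_apply, LinearMap.comp_apply, h2, map_zero, sub_zero]

end residue

end Pool.Agent.K9h50.NH
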