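import Mathlib
import Pool.Agent.K9h50.LS.W

/-!
# Initial forms at the fixed point, III
-/

set_option autoImplicit false
set_option linter.unusedSectionVars false
set_option maxHeartbeats 800000

namespace Pool.Agent.K9h50.NH

open Pool.Agent.H436R3.Fol hiding ex
open Pool.Agent.H436R3.KT Pool.Agent.W497.Mld MvPolynomial
open Pool.Agent.TH165.ACC (pr ex Prim Cn Hs lead part mldsR mvI mem_mvI ord_eq_zero_of_notMem
  lead_eq coeff_part pr_add pr_zero pr_neg pr_sub pr_smul pr_smul_right ex_add ex_inj exists_minor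
  euler_part support_euler coeff_euler exists_nat_ex DualVec)
open Pool.Agent.Helper43K9.NH

variable {n : ℕ}

section residue

variable {K : Type} [Field K] [Algebra ℂ K] {y : Fin n → K} (hy : ∀ i, y i ≠ 0)
  (V : ValuationSubring K)

include hy in
theorem exists_res_pt (hV : ∀ c : ℂ, algebraMap ℂ K c ∈ V) {J : Type}
    (h : J → MvPolynomial (Fin n) ℂ) (hh : ∀ j, aeval y (h j) = 0) {ν : Fin n → ℤ}
    (sj : J → Fin n →₀ ℕ) (hsj : ∀ j, h j ≠ 0 → sj j ∈ (h j).support)
    (h1 : ∀ j, ∀ s ∈ (h j).support, pr (ex (sj j)) ν ≤ pr (ex s) ν ∧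
      V.valuation (ch y (ex s)) ≤ V.valuation (ch y (ex (sj j))))
    (h2 : ∀ j, ∀ s ∈ (h j).support, (pr (ex s) ν = pr (ex (sj j)) ν ↔
      V.valuation (ch y (ex s)) = V.valuation (ch y (ex (sj j))))) :
    ∃ ξ : Fin n → ℂ, (∀ i, ξ i ≠ 0) ∧ ∀ j, eval ξ (lead ν (h j)) = 0 := by
  classical
  obtain ⟨ρ, hρ, hρ'⟩ := exists_proj hy V
  have hmem : ∀ m, ch y (ρ m) ∈ V := fun m =>
    (V.valuation_le_one_iff _).1 (le_of_eq (hρ m))
  let u : (Fin n → ℤ) → V := fun m => ⟨ch y (ρ m), hmem m⟩
  have u_add : ∀ m m', u (m + m') = u m * u m' := by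
    intro m m'
    apply Subtype.ext
    change ch y (ρ (m + m')) = ch y (ρ m) * ch y (ρ m')
    rw [map_add, ch_add hy]
  have u_zero : u 0 = 1 := by
    apply Subtype.ext
    change ch y (ρ 0) = 1
    rw [map_zero, ch_zero]
  let kV := IsLocalRing.ResidueField V
  let res : V →+* kV := IsLocalRing.residue V
  have hunit : ∀ m, res (u m) ≠ 0 := by
    intro m h3
    have h4 : res (u m) * res (u (-m)) = 1 := by
      rw [← map_mul, ← u_add, add_neg_cancel, u_zero, map_one]
    rw [h3, zero_mul] at h4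
    exact zero_ne_one h4
  let cV : ℂ →+* V := (algebraMap ℂ K).codRestrict V.toSubring hV
  let φ : ℂ →+* kV := res.comp cV
  let ζ : Fin n → kV := fun i => res (u (Pi.single i 1))
  have u_nsmul : ∀ (k : ℕ) m, u (k • m) = u m ^ k := by
    intro k m
    induction k with
    | zero => rw [zero_smul, u_zero, pow_zero]
    | succ k ih => rw [succ_nsmul, u_add, ih, pow_succ]
  have u_sum : ∀ (S : Finset (Fin n)) (f : Fin n → Fin n → ℤ),
      u (∑ i ∈ S, f i) = ∏ i ∈ S, u (f i) := by
    intro S f
    induction S using Finset.induction_on with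
    | empty => rw [Finset.sum_empty, u_zero, Finset.prod_empty]
    | insert a S ha ih => rw [Finset.sum_insert ha, Finset.prod_insert ha, u_add, ih]
  have hζ : ∀ s : Fin n →₀ ℕ, (s.prod fun i k => ζ i ^ k) = res (u (ex s)) := by
    intro s
    have h3 : ex s = ∑ i, (s i) • (Pi.single i (1 : ℤ) : Fin n → ℤ) := by
      funext j
      rw [Finset.sum_apply, Finset.sum_eq_single j]
      · simp [Pool.Agent.TH165.ACC.ex]
      · intro b _ hb
        simp [hb.symm]
      · intro h; exact absurd (Finset.mem_univ _) h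
    rw [h3, u_sum, map_prod, Finsupp.prod_fintype _ _ (fun i => pow_zero _)]
    refine Finset.prod_congr rfl fun i _ => ?_
    rw [u_nsmul, map_pow]
  let ψ : MvPolynomial (Fin n) ℂ →+* kV := eval₂Hom φ ζ
  have hψm : ∀ s c, ψ (monomial s c) = φ c * res (u (ex s)) := by
    intro s c
    change eval₂ φ ζ (monomial s c) = _
    rw [eval₂_monomial, hζ]
  have hprime : (RingHom.ker ψ).IsPrime := RingHom.ker_isPrime ψ
  have hX : ∀ i, (X i : MvPolynomial (Fin n) ℂ) ∉ RingHom.ker ψ := by
    intro i hi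
    rw [RingHom.mem_ker] at hi
    have h3 : ψ (X i) = ζ i := eval₂_X _ _ _
    rw [h3] at hi
    exact hunit _ hi
  have hlead : ∀ j, lead ν (h j) ∈ RingHom.ker ψ := by
    intro j
    rw [RingHom.mem_ker]
    by_cases h0 : h j = 0
    · have h3 : lead ν (h j) = 0 := by
        rw [h0]
        simp [Pool.Agent.TH165.ACC.lead]
      rw [h3, map_zero]
    have hphi : phi (expo (h j)) ν = pr (ex (sj j)) ν := by
      apply phi_eq
      · exact ⟨ex (sj j), mem_expo.2 ⟨_, hsj j h0, rfl⟩, rfl⟩
      · intro m hm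
        obtain ⟨s, hs, rfl⟩ := mem_expo.1 hm
        exact (h1 j s hs).1
    let R : (Fin n →₀ ℕ) → V := fun s =>
      if hs : ch y (ex s - ex (sj j)) ∈ V then ⟨_, hs⟩ else 0
    have hRmem : ∀ s ∈ (h j).support, ch y (ex s - ex (sj j)) ∈ V := by
      intro s hs
      rw [← V.valuation_le_one_iff, ch_sub hy, map_mul, map_inv₀]
      have h3 := (h1 j s hs).2
      have h4 : V.valuation (ch y (ex (sj j))) ≠ 0 := by
        rw [Valuation.ne_zero_iff]
        exact ch_ne hy _
      calc V.valuation (ch y (ex s)) * (V.valuation (ch y (ex (sj j))))⁻¹ ≤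
          V.valuation (ch y (ex (sj j))) * (V.valuation (ch y (ex (sj j))))⁻¹ :=
            mul_le_mul_left h3 _
        _ = 1 := mul_inv_cancel₀ h4
    have hR : ∀ s ∈ (h j).support, (R s : K) = ch y (ex s - ex (sj j)) := by
      intro s hs
      simp only [R]
      rw [dif_pos (hRmem s hs)]
    have hsum : ∑ s ∈ (h j).support, cV ((h j).coeff s) * R s = 0 := by
      apply Subtype.ext
      have h3 : ((∑ s ∈ (h j).support, cV ((h j).coeff s) * R s : V) : K) =
          ∑ s ∈ (h j).support, algebraMap ℂ K ((h j).coeff s) * ch y (ex s - ex (sj j)) := by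
        rw [AddSubmonoidClass.coe_finsetSum]
        refine Finset.sum_congr rfl fun s hs => ?_
        change algebraMap ℂ K _ * (R s : K) = _
        rw [hR s hs]
      rw [h3]
      have h4 : ∑ s ∈ (h j).support, algebraMap ℂ K ((h j).coeff s) * ch y (ex s - ex (sj j)) =
          aeval y (h j) * ch y (-ex (sj j)) := by
        rw [aeval_eq_sum, Finset.sum_mul]
        refine Finset.sum_congr rfl fun s _ => ?_
        rw [mul_assoc, ← ch_add hy, ← sub_eq_add_neg]
      rw [h4, hh, zero_mul]
      rfl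
    have hres : ∑ s ∈ (h j).support, φ ((h j).coeff s) * res (R s) = 0 := by
      have h3 := congrArg res hsum
      rw [map_zero, map_sum] at h3
      rw [← h3]
      refine Finset.sum_congr rfl fun s _ => ?_
      rw [map_mul]
      rfl
    have hterm : ∀ s ∈ (h j).support, φ ((h j).coeff s) * res (R s) * res (u (ex (sj j))) =
        if pr (ex s) ν = pr (ex (sj j)) ν then φ ((h j).coeff s) * res (u (ex s)) else 0 := by
      intro s hs
      split_ifs with h3
      · have h4 := (h2 j s hs).1 h3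
        have h5 : ex s - ex (sj j) ∈ M0 hy V := by
          rw [mem_M0, ch_sub hy, map_mul, map_inv₀, h4]
          apply mul_inv_cancel₀
          rw [Valuation.ne_zero_iff]
          exact ch_ne hy _
        have h6 : R s = u (ex s - ex (sj j)) := by
          apply Subtype.ext
          rw [hR s hs]
          change _ = ch y (ρ (ex s - ex (sj j)))
          rw [hρ' _ h5]
        rw [h6, mul_assoc, ← map_mul res, ← u_add, sub_add_cancel]
      · have h4 : V.valuation (ch y (ex s)) < V.valuation (ch y (ex (sj j))) :=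
          lt_of_le_of_ne (h1 j s hs).2 fun h5 => h3 ((h2 j s hs).2 h5)
        have h5 : res (R s) = 0 := by
          change IsLocalRing.residue V (R s) = 0
          rw [IsLocalRing.residue_eq_zero_iff, V.valuation_lt_one_iff, hR s hs, ch_sub hy, map_mul,
            map_inv₀]
          have h6 : 0 < V.valuation (ch y (ex (sj j))) := by
            rw [zero_lt_iff, Valuation.ne_zero_iff]
            exact ch_ne hy _
          exact (mul_inv_lt_iff₀ h6).2 (by rwa [one_mul])
        rw [h5, mul_zero, zero_mul]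
    rw [lead_phi h0, hphi, part, map_sum, Finset.sum_filter]
    have h3 : ∑ s ∈ (h j).support, (if pr (ex s) ν = pr (ex (sj j)) ν then
        ψ (monomial s ((h j).coeff s)) else 0) =
        ∑ s ∈ (h j).support, φ ((h j).coeff s) * res (R s) * res (u (ex (sj j))) := by
      refine Finset.sum_congr rfl fun s hs => ?_
      rw [hterm s hs, hψm]
    rw [h3, ← Finset.sum_mul, hres, zero_mul]
  obtain ⟨ξ, hξ, hξ2, -⟩ := exists_pt hprime hX (q := 1)
    (fun h => hprime.ne_top ((Ideal.eq_top_iff_one _).2 h))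
  exact ⟨ξ, hξ, fun j => hξ2 _ (hlead j)⟩

end residue

/-- **Initial forms at the fixed point.** If no element of the ideal generated by the polynomials
`h j` is a unit at the fixed point of the affine toric variety of the monoid `C`, then there are
weights which are positive on (any finite part of) `C` for which the initial forms of the `h j` have
a common zero in the torus. -/
theorem val_lemma {C : Set (Fin n → ℤ)} (hC0 : (0 : Fin n → ℤ) ∈ C)
    (hadd : ∀ a ∈ C, ∀ b ∈ C, a + b ∈ C) (hpt : ∀ a ∈ C, -a ∈ C → a = 0)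
    {J : Type} [Fintype J] (h : J → MvPolynomial (Fin n) ℂ) :
    (∃ (p : MvPolynomial (Fin n) ℂ) (k : Fin n →₀ ℕ), p ∈ Ideal.span (Set.range h) ∧
      p.coeff k ≠ 0 ∧ Shf C p k) ∨
    ∀ S : Finset (Fin n → ℤ), (∀ m ∈ S, m ∈ C ∧ m ≠ 0) → ∃ ν : Fin n → ℤ,
      (∀ m ∈ S, 0 < pr m ν) ∧ ∃ ξ : Fin n → ℂ, (∀ i, ξ i ≠ 0) ∧
        ∀ j, eval ξ (lead ν (h j)) = 0 := by
  classical
  by_cases hex : ∃ (p : MvPolynomial (Fin n) ℂ) (k : Fin n →₀ ℕ), p ∈ Ideal.span (Set.range h) ∧
      p.coeff k ≠ 0 ∧ Shf C p k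
  · exact Or.inl hex
  right
  intro S hS
  obtain ⟨𝔮, h𝔮, hle, hdis⟩ := (Ideal.span (Set.range h)).exists_le_prime_disjoint
    (S0 hC0 hadd hpt) (by
      rw [Set.disjoint_left]
      rintro p hp ⟨k, hk, hp2⟩
      exact hex ⟨p, k, hp, hk, hp2⟩)
  rw [Set.disjoint_left] at hdis
  have hX : ∀ i, (X i : MvPolynomial (Fin n) ℂ) ∉ 𝔮 := by
    intro i hi
    refine hdis hi ⟨Finsupp.single i 1, ?_, ?_⟩
    · have h3 : (X i : MvPolynomial (Fin n) ℂ).coeff (Finsupp.single i 1) = 1 := by
        rw [coeff_X, if_pos rfl]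
      rw [h3]
      exact one_ne_zero
    · intro s hs
      rw [support_X, Finset.mem_singleton] at hs
      rw [hs, sub_self]
      exact hC0
  obtain ⟨K, _, _, y, hy, hker⟩ := exists_field h𝔮 hX
  obtain ⟨V, hV, hVC⟩ := exists_valuation hC0 hadd hpt hy (fun p hp h0 => hdis ((hker p).1 h0) hp)
  have hmax : ∀ j, ∃ s, (h j ≠ 0 → s ∈ (h j).support) ∧ ∀ t ∈ (h j).support,
      V.valuation (ch y (ex t)) ≤ V.valuation (ch y (ex s)) := by
    intro j
    by_cases h0 : h j = 0
    · exact ⟨0, fun h1 => absurd h0 h1, fun t ht => by rw [h0] at ht; simp at ht⟩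
    · obtain ⟨s, hs, hs2⟩ := (h j).support.exists_max_image
        (fun t => V.valuation (ch y (ex t))) (by
          rwa [Finset.nonempty_iff_ne_empty, Ne, support_eq_empty])
      exact ⟨s, fun _ => hs, hs2⟩
  choose sj hsj hsj2 using hmax
  let A : Finset (Fin n → ℤ) := Finset.univ.biUnion fun j =>
    ((h j).support.image fun s => ex s - ex (sj j)) ∪
    (((h j).support.filter fun s => V.valuation (ch y (ex s)) = V.valuation (ch y (ex (sj j)))).image
      fun s => ex (sj j) - ex s)
  let B : Finset (Fin n → ℤ) := S ∪ Finset.univ.biUnion fun j =>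
    ((h j).support.filter fun s => V.valuation (ch y (ex s)) < V.valuation (ch y (ex (sj j)))).image
      fun s => ex s - ex (sj j)
  have hne : ∀ m, V.valuation (ch y m) ≠ 0 := by
    intro m
    rw [Valuation.ne_zero_iff]
    exact ch_ne hy _
  have hvsub : ∀ a b, V.valuation (ch y (a - b)) =
      V.valuation (ch y a) * (V.valuation (ch y b))⁻¹ := by
    intro a b
    rw [ch_sub hy, map_mul, map_inv₀]
  obtain ⟨ν, hνA, hνB⟩ := exists_weight (val := fun m => V.valuation (ch y m))
    (by simp only [ch_zero, map_one]) (by intro m m'; simp only [ch_add hy, map_mul]) A B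
    (by
      intro m hm
      simp only [A, Finset.mem_biUnion, Finset.mem_union, Finset.mem_image,
        Finset.mem_filter] at hm
      obtain ⟨j, -, ⟨s, hs, rfl⟩ | ⟨s, ⟨hs, hs2⟩, rfl⟩⟩ := hm
      · change V.valuation (ch y (ex s - ex (sj j))) ≤ 1
        rw [hvsub]
        calc V.valuation (ch y (ex s)) * (V.valuation (ch y (ex (sj j))))⁻¹ ≤
          V.valuation (ch y (ex (sj j))) * (V.valuation (ch y (ex (sj j))))⁻¹ :=
            mul_le_mul_left (hsj2 j s hs) _
        _ = 1 := mul_inv_cancel₀ (hne _)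
      · change V.valuation (ch y (ex (sj j) - ex s)) ≤ 1
        rw [hvsub, hs2, mul_inv_cancel₀ (hne _)])
    (by
      intro m hm
      simp only [B, Finset.mem_biUnion, Finset.mem_union, Finset.mem_image,
        Finset.mem_filter] at hm
      obtain hm | ⟨j, -, s, ⟨hs, hs2⟩, rfl⟩ := hm
      · exact hVC m (hS m hm).1 (hS m hm).2
      · change V.valuation (ch y (ex s - ex (sj j))) < 1
        rw [hvsub]
        exact (mul_inv_lt_iff₀ (zero_lt_iff.2 (hne _))).2 (by rwa [one_mul]))
  refine ⟨ν, fun m hm => hνB m (Finset.mem_union_left _ hm), ?_⟩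
  have hA1 : ∀ j, ∀ s ∈ (h j).support, pr (ex (sj j)) ν ≤ pr (ex s) ν := by
    intro j s hs
    have h3 : ex s - ex (sj j) ∈ A := by
      simp only [A, Finset.mem_biUnion, Finset.mem_union, Finset.mem_image]
      exact ⟨j, Finset.mem_univ _, Or.inl ⟨s, hs, rfl⟩⟩
    have h4 := hνA _ h3
    rw [pr_sub] at h4
    omega
  refine exists_res_pt hy V hV h ?_ sj hsj ?_ ?_
  · intro j
    rw [hker]
    exact hle (Ideal.subset_span ⟨j, rfl⟩)
  · intro j s hs
    exact ⟨hA1 j s hs, hsj2 j s hs⟩
  · intro j s hs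
    constructor
    · intro h3
      by_contra h4
      have h5 : V.valuation (ch y (ex s)) < V.valuation (ch y (ex (sj j))) :=
        lt_of_le_of_ne (hsj2 j s hs) h4
      have h6 : ex s - ex (sj j) ∈ B := by
        simp only [B, Finset.mem_biUnion, Finset.mem_union, Finset.mem_image, Finset.mem_filter]
        exact Or.inr ⟨j, Finset.mem_univ _, s, ⟨hs, h5⟩, rfl⟩
      have h7 := hνB _ h6
      rw [pr_sub, h3] at h7
      omega
    · intro h3
      have h4 : ex (sj j) - ex s ∈ A := by
        simp only [A, Finset.mem_biUnion, Finset.mem_union, Finset.mem_image, Finset.mem_filter]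
        exact ⟨j, Finset.mem_univ _, Or.inr ⟨s, ⟨hs, h3⟩, rfl⟩⟩
      have h5 := hνA _ h4
      have h6 := hA1 j s hs
      rw [pr_sub] at h5
      omega

end Pool.Agent.K9h50.NH
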