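import Mathlib
import Pool.Agent.K9h50.LS.B
import Pool.Agent.K9h50.NH.Comb

/-!
# From the relative interior of a face to the interior
-/

set_option autoImplicit false
set_option linter.unusedSectionVars false
set_option maxHeartbeats 800000

namespace Pool.Agent.K9h50.NH

open Pool.Agent.H436R3.Fol hiding ex
open Pool.Agent.H436R3.KT Pool.Agent.W497.Mld MvPolynomial
open Pool.Agent.TH165.ACC (pr ex Prim Cn Hs lead part mldsR mvI mem_mvI ord_eq_zero_of_notMem
  lead_eq coeff_part pr_add pr_zero pr_neg pr_sub pr_smul pr_smul_right ex_add ex_inj exists_minor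
  euler_part support_euler coeff_euler exists_nat_ex DualVec DualVec.le exists_simplex Coord
  coord_pr)
open Pool.Agent.Helper43K9.NH

section gens

variable {n N : ℕ} {E : Fin N → Fin n → ℤ}

theorem exists_gens (hfull : ∀ m : Fin n → ℤ, (∀ i, pr m (E i) = 0) → m = 0) :
    ∃ S : Finset (Fin n → ℤ), (∀ s ∈ S, s ∈ Cn E ∧ s ≠ 0) ∧
      ∀ m ∈ Cn E, m ≠ 0 → ∃ s ∈ S, m - s ∈ Cn E := by
  classical
  let f : (Fin n → ℤ) → (Fin N → ℕ) := fun m i => (pr m (E i)).toNat
  let U : (Fin N → ℕ) → Prop := fun a => ∃ m ∈ Cn E, m ≠ 0 ∧ f m = a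
  have hfin : {x | Minimal U x}.Finite :=
    WellQuasiOrderedLE.finite_of_isAntichain (setOfPred_minimal_antichain U)
  have hch : ∀ a : Fin N → ℕ, ∃ m : Fin n → ℤ, U a → (m ∈ Cn E ∧ m ≠ 0 ∧ f m = a) := by
    intro a
    by_cases h : U a
    · obtain ⟨m, hm⟩ := h
      exact ⟨m, fun _ => hm⟩
    · exact ⟨0, fun h' => absurd h' h⟩
  choose r hr using hch
  refine ⟨hfin.toFinset.image r, ?_, ?_⟩
  · intro s hs
    rw [Finset.mem_image] at hs
    obtain ⟨a, ha, rfl⟩ := hs
    have ha' : Minimal U a := by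
      rw [Set.Finite.mem_toFinset] at ha
      exact ha
    obtain ⟨h1, h2, -⟩ := hr a ha'.1
    exact ⟨h1, h2⟩
  · intro m hm hm0
    obtain ⟨a, hle, hmin⟩ := exists_minimal_le_of_wellFoundedLT U (f m) ⟨m, hm, hm0, rfl⟩
    obtain ⟨h1, h2, h3⟩ := hr a hmin.1
    refine ⟨r a, ?_, ?_⟩
    · rw [Finset.mem_image]
      exact ⟨a, by rw [Set.Finite.mem_toFinset]; exact hmin, rfl⟩
    · intro i
      rw [pr_sub]
      have h4 := hle i
      rw [← h3] at h4
      simp only [f] at h4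
      have h5 := hm i
      have h6 := h1 i
      omega

theorem pos_of_gens (hfull : ∀ m : Fin n → ℤ, (∀ i, pr m (E i) = 0) → m = 0)
    {S : Finset (Fin n → ℤ)} (hS : ∀ s ∈ S, s ∈ Cn E ∧ s ≠ 0)
    (hS2 : ∀ m ∈ Cn E, m ≠ 0 → ∃ s ∈ S, m - s ∈ Cn E) {T : Finset (Fin N)} {ν : Fin n → ℤ}
    (hν : ∀ s ∈ S, s ∈ TP E T → 0 < pr s ν) :
    ∀ m ∈ Cn E, m ∈ TP E T → m ≠ 0 → 0 < pr m ν := by
  have hpos : ∀ m ∈ Cn E, m ≠ 0 → 0 < ∑ i, pr m (E i) := by
    intro m hm hm0
    refine Finset.sum_pos' (fun i _ => hm i) ?_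
    by_contra h
    push Not at h
    exact hm0 (hfull m fun i => le_antisymm (h i (Finset.mem_univ _)) (hm i))
  have key : ∀ (k : ℕ) (m : Fin n → ℤ), m ∈ Cn E → m ∈ TP E T → m ≠ 0 →
      ∑ i, pr m (E i) ≤ k → 0 < pr m ν := by
    intro k
    induction k with
    | zero =>
      intro m hm _ hm0 hk
      have := hpos m hm hm0
      push_cast at hk
      omega
    | succ k ih =>
      intro m hm hmT hm0 hk
      obtain ⟨s, hs, hms⟩ := hS2 m hm hm0
      obtain ⟨hsC, hs0⟩ := hS s hs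
      have hsT : s ∈ TP E T := by
        intro i hi
        have h1 := hmT i hi
        have h2 := hms i
        have h3 := hsC i
        rw [pr_sub] at h2
        omega
      have h1 := hν s hs hsT
      by_cases h0 : m - s = 0
      · rw [sub_eq_zero.1 h0]
        exact h1
      · have h2 := ih (m - s) hms (Submodule.sub_mem _ hmT hsT) h0 (by
          have h3 := hpos s hsC hs0
          simp only [pr_sub, Finset.sum_sub_distrib]
          push_cast at hk
          omega)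
        rw [pr_sub] at h2
        omega
  intro m hm hmT hm0
  exact key (∑ i, pr m (E i)).toNat m hm hmT hm0 (Int.self_le_toNat _)

/-- `w` is in the relative interior of the face spanned by the rays in `T` -/
def RI (E : Fin N → Fin n → ℤ) (T : Finset (Fin N)) (w : Fin n → ℤ) : Prop :=
  ∀ m ∈ Cn E, 0 ≤ pr m w ∧ (pr m w = 0 ↔ m ∈ TP E T)

theorem pr_comb {k : ℕ} (z : Fin k → ℤ) (m : Fin k → Fin n → ℤ) (u : Fin n → ℤ) :
    pr (∑ j, z j • m j) u = pr z fun j => pr (m j) u := by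
  simp only [pr, Finset.sum_apply, Pi.smul_apply, smul_eq_mul, Finset.sum_mul, Finset.mul_sum]
  rw [Finset.sum_comm]
  refine Finset.sum_congr rfl fun i _ => Finset.sum_congr rfl fun j _ => by ring

theorem pr_sum_right {ι : Type} (s : Finset ι) (m : Fin n → ℤ) (u : ι → Fin n → ℤ) :
    pr m (∑ j ∈ s, u j) = ∑ j ∈ s, pr m (u j) := by
  simp only [pr, Finset.sum_apply, Finset.mul_sum]
  rw [Finset.sum_comm]

theorem dual_full {k : ℕ} {A : Fin k → Fin k → ℤ} {D : ℤ} (hD : DualVec A D) {z : Fin k → ℤ}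
    (hz : ∀ j, pr z (A j) = 0) : z = 0 := by
  obtain ⟨hD0, hD⟩ := hD
  choose Q hQ using hD
  let Qm : Matrix (Fin k) (Fin k) ℚ := Matrix.of fun i l => (D : ℚ)⁻¹ * (Q i l : ℚ)
  let Am : Matrix (Fin k) (Fin k) ℚ := Matrix.of fun l j => (A j l : ℚ)
  have hDQ : (D : ℚ) ≠ 0 := by exact_mod_cast hD0.ne'
  have h1 : Qm * Am = 1 := by
    ext i j
    rw [Matrix.mul_apply]
    have h2 : ∑ l, Qm i l * Am l j = (D : ℚ)⁻¹ * (pr (Q i) (A j) : ℚ) := by
      rw [pr]
      push_cast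
      rw [Finset.mul_sum]
      refine Finset.sum_congr rfl fun l _ => ?_
      simp only [Qm, Am, Matrix.of_apply]
      ring
    rw [h2, hQ, Matrix.one_apply]
    by_cases hij : i = j
    · rw [if_pos hij, if_pos hij.symm]
      exact inv_mul_cancel₀ hDQ
    · rw [if_neg hij, if_neg (Ne.symm hij)]
      simp
  have h2 : Am * Qm = 1 := mul_eq_one_comm.1 h1
  let zq : Fin k → ℚ := fun l => (z l : ℚ)
  have h3 : Matrix.vecMul zq Am = 0 := by
    funext j
    have h4 : Matrix.vecMul zq Am j = (pr z (A j) : ℚ) := by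
      rw [pr]
      push_cast
      rfl
    rw [h4, hz]
    simp
  have h4 : zq = 0 := by
    calc zq = Matrix.vecMul zq (Am * Qm) := by rw [h2, Matrix.vecMul_one]
      _ = 0 := by rw [← Matrix.vecMul_vecMul, h3, Matrix.zero_vecMul]
  funext l
  have h5 := congrFun h4 l
  simp only [zq, Pi.zero_apply] at h5
  exact_mod_cast h5

/-- a simplex of rays modulo the face -/
theorem exists_rays {T : Finset (Fin N)} {k : ℕ} {m : Fin k → Fin n → ℤ}
    (hm : ∀ j, m j ∈ TP E T) (hind : ∀ z : Fin k → ℤ, ∑ j, z j • m j = 0 → z = 0)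
    (hspan : ∀ x ∈ TP E T, ∃ z : Fin k → ℤ, x = ∑ j, z j • m j) {ν : Fin n → ℤ}
    (hν : ∀ x ∈ Cn E, x ∈ TP E T → x ≠ 0 → 0 < pr x ν) :
    ∃ (l : ℕ) (a : Fin l → Fin N) (u : Fin l → ℝ), l ≤ k ∧ (∀ i, 0 < u i) ∧
      (∀ x ∈ TP E T, (pr x ν : ℝ) = ∑ i, u i * (pr x (E (a i)) : ℝ)) ∧
      (l = k → ∀ x ∈ TP E T, (∀ i, pr x (E (a i)) = 0) → x = 0) := by
  let E' : Fin N → Fin k → ℤ := fun i j => pr (m j) (E i)
  let ν' : Fin k → ℤ := fun j => pr (m j) ν
  have hzT : ∀ z : Fin k → ℤ, ∑ j, z j • m j ∈ TP E T := fun z =>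
    Submodule.sum_mem _ fun j _ => Submodule.smul_mem _ _ (hm j)
  obtain ⟨l, a, u, hu, hsum, D, hD⟩ := exists_simplex (E := E') (u := ν') (by
    intro z hz
    have h1 : ∑ j, z j • m j ∈ Cn E := by
      intro i
      rw [pr_comb]
      exact hz i
    have h2 : pr z ν' = pr (∑ j, z j • m j) ν := by rw [pr_comb]
    rw [h2]
    by_cases h0 : ∑ j, z j • m j = 0
    · rw [h0, pr_zero]
    · exact (hν _ h1 (hzT z) h0).le)
  refine ⟨l, a, u, hD.le, hu, ?_, ?_⟩
  · intro x hx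
    obtain ⟨z, rfl⟩ := hspan x hx
    have h1 : Coord (fun i => E' (a i)) u ν' := hsum
    have h2 := coord_pr h1 z
    rw [pr_comb]
    have h3 : (pr z ν' : ℝ) = ∑ i, u i * (pr z (E' (a i)) : ℝ) := h2
    change (pr z ν' : ℝ) = _
    rw [h3]
    refine Finset.sum_congr rfl fun i _ => ?_
    rw [pr_comb]
  · intro hlk x hx hx0
    subst hlk
    obtain ⟨z, rfl⟩ := hspan x hx
    have h1 : z = 0 := dual_full hD fun i => by
      have h2 := hx0 i
      rw [pr_comb] at h2
      exact h2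
    rw [h1]
    simp

end gens

variable {d : ℕ} {L : Type} [Field L] [Algebra ℂ L] {g : HypGerm d L}

theorem phi_sum {n : ℕ} {S : Finset (Fin n → ℤ)} (hS : S.Nonempty) (w : Fin n → ℤ) {ι : Type}
    (s : Finset ι) (u : ι → Fin n → ℤ) :
    phi S w + ∑ j ∈ s, phi S (u j) ≤ phi S (w + ∑ j ∈ s, u j) := by
  classical
  induction s using Finset.induction_on with
  | empty => simp
  | insert a s ha ih =>
    rw [Finset.sum_insert ha, Finset.sum_insert ha]
    have h1 := phi_add hS (w + ∑ j ∈ s, u j) (u a)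
    have h2 : w + (u a + ∑ j ∈ s, u j) = w + ∑ j ∈ s, u j + u a := by abel
    rw [h2]
    omega

theorem dot_sum {n : ℕ} (ψ : Fin n → ℝ) {ι : Type} (s : Finset ι) (u : ι → Fin n → ℤ) :
    dot ψ (∑ j ∈ s, u j) = ∑ j ∈ s, dot ψ (u j) := by
  classical
  induction s using Finset.induction_on with
  | empty => simp [dot]
  | insert a s ha ih => rw [Finset.sum_insert ha, Finset.sum_insert ha, dot_add, ih]

theorem ld_rays (b : Bdy g) {w : Fin (d + 1) → ℤ} {l : ℕ} (a : Fin l → Fin g.N) {r : ℤ}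
    (h : phi (expo g.F) w + ∑ j, phi (expo g.F) (g.E (a j)) + r ≤
      phi (expo g.F) (w + ∑ j, g.E (a j))) :
    ld b (w + ∑ j, g.E (a j)) ≤ ld b w + l - r := by
  have h1 : ((phi (expo g.F) w : ℤ) : ℝ) + ∑ j, (phi (expo g.F) (g.E (a j)) : ℝ) + (r : ℝ) ≤
      (phi (expo g.F) (w + ∑ j, g.E (a j)) : ℝ) := by exact_mod_cast h
  have h2 : ∀ t, (phi (expo (b.G t)) w : ℝ) + ∑ j, (phi (expo (b.G t)) (g.E (a j)) : ℝ) ≤
      (phi (expo (b.G t)) (w + ∑ j, g.E (a j)) : ℝ) := by
    intro t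
    exact_mod_cast phi_sum (expo_nonempty (G_ne b t)) w Finset.univ fun j => g.E (a j)
  have h3 : ∑ t, b.c t * (phi (expo (b.G t)) w : ℝ) +
      ∑ j, ∑ t, b.c t * (phi (expo (b.G t)) (g.E (a j)) : ℝ) ≤
      ∑ t, b.c t * (phi (expo (b.G t)) (w + ∑ j, g.E (a j)) : ℝ) := by
    rw [Finset.sum_comm, ← Finset.sum_add_distrib]
    refine Finset.sum_le_sum fun t _ => ?_
    rw [← Finset.mul_sum, ← mul_add]
    exact mul_le_mul_of_nonneg_left (h2 t) (b.c0 t)
  have h4 : dot b.ψ (∑ j, g.E (a j)) = ∑ j, (1 - b.β (a j) + (phi (expo g.F) (g.E (a j)) : ℝ) +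
      ∑ t, b.c t * (phi (expo (b.G t)) (g.E (a j)) : ℝ)) := by
    rw [dot_sum]
    exact Finset.sum_congr rfl fun j _ => b.eq (a j)
  have h5 : ∑ j, (1 - b.β (a j) + (phi (expo g.F) (g.E (a j)) : ℝ) +
      ∑ t, b.c t * (phi (expo (b.G t)) (g.E (a j)) : ℝ)) =
      ∑ j : Fin l, (1 - b.β (a j)) + ∑ j, (phi (expo g.F) (g.E (a j)) : ℝ) +
      ∑ j, ∑ t, b.c t * (phi (expo (b.G t)) (g.E (a j)) : ℝ) := by
    rw [Finset.sum_add_distrib, Finset.sum_add_distrib]
  have h6 : ∑ j : Fin l, (1 - b.β (a j)) ≤ l := by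
    calc ∑ j : Fin l, (1 - b.β (a j)) ≤ ∑ j : Fin l, (1 : ℝ) :=
          Finset.sum_le_sum fun j _ => by linarith [b.β0 (a j)]
      _ = l := by simp
  rw [ld, ld, dot_add, h4, h5]
  linarith

/-- **The combinatorial step.** -/
theorem comb {T : Finset (Fin g.N)} {w : Fin (d + 1) → ℤ} (hw : RI g.E T w) {k : ℕ}
    {m : Fin k → Fin (d + 1) → ℤ} (hm : ∀ j, m j ∈ TP g.E T)
    (hind : ∀ z : Fin k → ℤ, ∑ j, z j • m j = 0 → z = 0)
    (hspan : ∀ x ∈ TP g.E T, ∃ z : Fin k → ℤ, x = ∑ j, z j • m j) {ν : Fin (d + 1) → ℤ}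
    (hν : ∀ x ∈ Cn g.E, x ∈ TP g.E T → x ≠ 0 → 0 < pr x ν) :
    ∃ w', Inn g.E w' ∧ (∀ b : Bdy g, ld b w' ≤ ld b w + k) ∧
      (1 ≤ k → (∀ x ∈ expo g.F, pr x w = phi (expo g.F) w →
        ∃ x' ∈ expo g.F, x' ≠ x ∧ x' - x ∈ TP g.E T ∧ pr x' ν ≤ pr x ν) →
        ∀ b : Bdy g, ld b w' ≤ ld b w + k - 1) := by
  obtain ⟨l, a, u, hlk, hu, hsum, hfull⟩ := exists_rays hm hind hspan hν
  have h0 := phi_sum (expo_nonempty g.Fne) w Finset.univ fun j => g.E (a j)
  have hlR : (l : ℝ) ≤ k := by exact_mod_cast hlk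
  refine ⟨w + ∑ j, g.E (a j), ?_, ?_, ?_⟩
  · intro x hx hx0
    rw [pr_add_right, pr_sum_right]
    obtain ⟨h1, h2⟩ := hw x hx
    have h3 : 0 ≤ ∑ j, pr x (g.E (a j)) := Finset.sum_nonneg fun j _ => hx (a j)
    rcases h1.lt_or_eq with h4 | h4
    · omega
    · have h5 := h2.1 h4.symm
      have h6 := hν x hx h5 hx0
      have h7 : 0 < ∑ j, pr x (g.E (a j)) := by
        refine Finset.sum_pos' (fun j _ => hx (a j)) ?_
        by_contra h8
        push Not at h8
        have h9 := hsum x h5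
        rw [Finset.sum_eq_zero] at h9
        · have : pr x ν = 0 := by exact_mod_cast h9
          omega
        · intro i _
          have h10 : pr x (g.E (a i)) = 0 := le_antisymm (h8 i (Finset.mem_univ _)) (hx (a i))
          rw [h10]
          simp
      omega
  · intro b
    have h1 := ld_rays b a (w := w) (r := 0) (by rw [add_zero]; exact h0)
    push_cast at h1
    linarith
  · intro hk hpair b
    rcases hlk.lt_or_eq with h1 | h1
    · have h2 := ld_rays b a (w := w) (r := 0) (by rw [add_zero]; exact h0)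
      have h3 : (l : ℝ) + 1 ≤ k := by exact_mod_cast h1
      push_cast at h2
      linarith
    · have h2 := ld_rays b a (w := w) (r := 1) (by
        obtain ⟨⟨x, hx, hx2⟩, -⟩ := phi_spec (expo_nonempty g.Fne) (w + ∑ j, g.E (a j))
        by_contra hcon
        push Not at hcon
        have h3 : phi (expo g.F) w + ∑ j, phi (expo g.F) (g.E (a j)) =
            pr x (w + ∑ j, g.E (a j)) := by omega
        rw [pr_add_right, pr_sum_right] at h3
        have h4 := (phi_spec (expo_nonempty g.Fne) w).2 x hx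
        have h5 : ∀ j ∈ Finset.univ, phi (expo g.F) (g.E (a j)) ≤ pr x (g.E (a j)) := fun j _ =>
          (phi_spec (expo_nonempty g.Fne) (g.E (a j))).2 x hx
        have h6 := Finset.sum_le_sum h5
        have h7 : pr x w = phi (expo g.F) w := by omega
        have h8 : ∑ j, phi (expo g.F) (g.E (a j)) = ∑ j, pr x (g.E (a j)) := by omega
        have h9 := (Finset.sum_eq_sum_iff_of_le h5).1 h8
        obtain ⟨x', hx', hne, hT, hle⟩ := hpair x hx h7
        apply hne
        have h10 : ∀ j, 0 ≤ pr (x' - x) (g.E (a j)) := by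
          intro j
          rw [pr_sub, ← h9 j (Finset.mem_univ _)]
          have := (phi_spec (expo_nonempty g.Fne) (g.E (a j))).2 x' hx'
          omega
        have h11 := hsum (x' - x) hT
        have h12 : (pr (x' - x) ν : ℝ) ≤ 0 := by
          have : pr (x' - x) ν ≤ 0 := by rw [pr_sub]; omega
          exact_mod_cast this
        rw [h11] at h12
        have h13 : ∀ j ∈ Finset.univ, 0 ≤ u j * (pr (x' - x) (g.E (a j)) : ℝ) := fun j _ =>
          mul_nonneg (hu j).le (by exact_mod_cast h10 j)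
        have h14 := (Finset.sum_eq_zero_iff_of_nonneg h13).1
          (le_antisymm h12 (Finset.sum_nonneg h13))
        have h15 := hfull h1 (x' - x) hT fun j => by
          have h16 := h14 j (Finset.mem_univ _)
          rcases mul_eq_zero.1 h16 with h17 | h17
          · exact absurd h17 (hu j).ne'
          · exact_mod_cast h17
        exact sub_eq_zero.1 h15)
      have h3 : (l : ℝ) = k := by exact_mod_cast h1
      push_cast at h2
      linarith

end Pool.Agent.K9h50.NH
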