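import Mathlib
import Pool.Agent.K9h50.LS.X
import Pool.Agent.K9h50.LS.Y

/-!
# The neighbourhood of the fixed point
-/

set_option autoImplicit false
set_option linter.unusedSectionVars false
set_option maxHeartbeats 800000

namespace Pool.Agent.K9h50.NH

open Pool.Agent.H436R3.Fol hiding ex
open Pool.Agent.H436R3.KT Pool.Agent.W497.Mld MvPolynomial
open Pool.Agent.TH165.ACC (pr ex Prim Cn Hs lead part mldsR mvI mem_mvI ord_eq_zero_of_notMem
  lead_eq coeff_part pr_add pr_zero pr_neg pr_sub pr_smul pr_smul_right ex_add ex_inj exists_minor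
  euler_part support_euler coeff_euler exists_nat_ex DualVec)
open Pool.Agent.Helper43K9.NH

section forms

variable {n : ℕ}

/-- iterated initial forms -/
theorem lead_lead {F : MvPolynomial (Fin n) ℂ} (hF : F ≠ 0) (w ν : Fin n → ℤ) :
    ∃ K0 : ℤ, ∀ K, K0 ≤ K → lead (K • w + ν) F = lead ν (lead w F) := by
  classical
  let M : ℤ := ∑ s ∈ F.support, |pr (ex s) ν|
  have hM : ∀ s ∈ F.support, |pr (ex s) ν| ≤ M := fun s hs =>
    Finset.single_le_sum (f := fun s => |pr (ex s) ν|) (fun t _ => abs_nonneg _) hs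
  refine ⟨2 * M + 1, fun K hK => ?_⟩
  have hM0 : 0 ≤ M := Finset.sum_nonneg fun s _ => abs_nonneg _
  have hL := lead_ne (w := w) hF
  obtain ⟨⟨t, ht, ht2⟩, hmin⟩ := phi_expo hL ν
  obtain ⟨htF, htw⟩ := lead_support hF t ht
  have hcase : ∀ s ∈ F.support, pr (ex s) w = phi (expo F) w ∨ phi (expo F) w + 1 ≤ pr (ex s) w := by
    intro s hs
    have := (phi_expo hF w).2 s hs
    omega
  have hmem : ∀ s ∈ F.support, pr (ex s) w = phi (expo F) w → s ∈ (lead w F).support := by
    intro s hs h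
    rw [lead_phi hF, mem_support_iff, coeff_part, if_pos h]
    exact mem_support_iff.1 hs
  have hpr : ∀ s : Fin n →₀ ℕ, pr (ex s) (K • w + ν) = K * pr (ex s) w + pr (ex s) ν := by
    intro s
    rw [pr_add_right, pr_smul_right]
  have hbig : ∀ s ∈ F.support, phi (expo F) w + 1 ≤ pr (ex s) w →
      K * phi (expo F) w + phi (expo (lead w F)) ν < pr (ex s) (K • w + ν) := by
    intro s hs h
    rw [hpr, ht2]
    have h1 := hM s hs
    have h2 := hM t htF
    rw [abs_le] at h1 h2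
    have h3 : K * (phi (expo F) w + 1) ≤ K * pr (ex s) w := mul_le_mul_of_nonneg_left h (by omega)
    have h4 : K * (phi (expo F) w + 1) = K * phi (expo F) w + K := by ring
    omega
  have hphi : phi (expo F) (K • w + ν) = K * phi (expo F) w + phi (expo (lead w F)) ν := by
    apply phi_eq
    · refine ⟨ex t, mem_expo.2 ⟨t, htF, rfl⟩, ?_⟩
      rw [hpr, htw, ← ht2]
    · intro m hm
      obtain ⟨s, hs, rfl⟩ := mem_expo.1 hm
      rcases hcase s hs with h | h
      · rw [hpr, h]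
        have := hmin s (hmem s hs h)
        omega
      · exact (hbig s hs h).le
  rw [lead_phi hF, lead_phi hL]
  ext s
  rw [coeff_part, coeff_part, hphi]
  by_cases hs : s ∈ F.support
  · rcases hcase s hs with h | h
    · rw [lead_phi hF, coeff_part, if_pos h, hpr, h]
      have : (K * phi (expo F) w + pr (ex s) ν = K * phi (expo F) w +
          phi (expo (part w (phi (expo F) w) F)) ν) ↔
          pr (ex s) ν = phi (expo (part w (phi (expo F) w) F)) ν := by
        constructor <;> intro h <;> omega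
      simp only [this]
    · have h1 := hbig s hs h
      rw [if_neg (by omega)]
      have h2 : (lead w F).coeff s = 0 := by
        rw [lead_phi hF, coeff_part, if_neg (by omega)]
      rw [h2]
      simp
  · have h1 : F.coeff s = 0 := notMem_support_iff.1 hs
    have h2 : (lead w F).coeff s = 0 := by
      rw [lead_phi hF, coeff_part, h1]
      simp
    rw [h1, h2]
    simp

/-- initial forms of the logarithmic derivatives -/
theorem lead_euler {q : MvPolynomial (Fin n) ℂ} (hq : q ≠ 0) {ν : Fin n → ℤ} {ξ : Fin n → ℂ}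
    {i : Fin n} (h : eval ξ (lead ν (X i * pderiv i q)) = 0) :
    eval ξ (X i * pderiv i (lead ν q)) = 0 := by
  by_cases h0 : X i * pderiv i (lead ν q) = 0
  · rw [h0, map_zero]
  have h1 : X i * pderiv i (lead ν q) = part ν (phi (expo q) ν) (X i * pderiv i q) := by
    rw [lead_phi hq, euler_part]
  rw [h1] at h0 ⊢
  have hne : X i * pderiv i q ≠ 0 := by
    intro h2
    apply h0
    rw [h2]
    ext s
    rw [coeff_part]
    simp
  have hphi : phi (expo (X i * pderiv i q)) ν = phi (expo q) ν := by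
    obtain ⟨⟨t, ht, h4⟩, -⟩ := phi_expo h0 ν
    rw [phi_part h0] at h4
    have h5 : t ∈ (X i * pderiv i q).support := by
      rw [mem_support_iff, coeff_part] at ht
      rw [if_pos h4.symm] at ht
      exact mem_support_iff.2 ht
    apply phi_eq
    · exact ⟨ex t, mem_expo.2 ⟨t, h5, rfl⟩, h4.symm⟩
    · intro m hm
      obtain ⟨r, hr, rfl⟩ := mem_expo.1 hm
      exact (phi_expo hq ν).2 r (support_euler i _ hr)
  rw [lead_phi hne, hphi] at h
  exact h

/-- the part of `F` with the exponents in `𝒮` -/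
noncomputable def sup (𝒮 : Finset (Fin n →₀ ℕ)) (F : MvPolynomial (Fin n) ℂ) :
    MvPolynomial (Fin n) ℂ := ∑ s ∈ 𝒮, monomial s (F.coeff s)

theorem sup_eq {F : MvPolynomial (Fin n) ℂ} (hF : F ≠ 0) {w : Fin n → ℤ} :
    sup (lead w F).support F = lead w F := by
  conv_rhs => rw [(lead w F).as_sum]
  rw [sup]
  refine Finset.sum_congr rfl fun s hs => ?_
  obtain ⟨-, h⟩ := lead_support hF s hs
  congr 1
  rw [lead_phi hF, coeff_part, if_pos h]

end forms

variable {d : ℕ} {L : Type} [Field L] [Algebra ℂ L] {g : HypGerm d L}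

/-- the exponents of the regular monomials which are units along the stratum -/
def CT (g : HypGerm d L) (T : Finset (Fin g.N)) : Set (Fin (d + 1) → ℤ) :=
  {m | m ∈ Cn g.E ∧ m ∈ TP g.E T}

theorem CT_zero (T : Finset (Fin g.N)) : (0 : Fin (d + 1) → ℤ) ∈ CT g T :=
  ⟨fun i => by rw [pr_zero], Submodule.zero_mem _⟩

theorem CT_add (T : Finset (Fin g.N)) : ∀ a ∈ CT g T, ∀ b ∈ CT g T, a + b ∈ CT g T := by
  intro a ha b hb
  refine ⟨fun i => ?_, Submodule.add_mem _ ha.2 hb.2⟩
  rw [pr_add]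
  exact add_nonneg (ha.1 i) (hb.1 i)

theorem CT_pt (T : Finset (Fin g.N)) : ∀ a ∈ CT g T, -a ∈ CT g T → a = 0 := by
  intro a ha hb
  refine g.full a fun i => ?_
  have h1 := ha.1 i
  have h2 := hb.1 i
  rw [pr_neg] at h2
  omega

section fn

variable {T : Finset (Fin g.N)} {p : MvPolynomial (Fin (d + 1)) ℂ} {k : Fin (d + 1) →₀ ℕ}

/-- the regular function of a polynomial with a constant term -/
theorem exists_fn (hp : Shf (CT g T) p k) : ∃ f : g.X.R, (f : L) * ch g.y (ex k) = aeval g.y p ∧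
    g.P f = p.coeff k := by
  classical
  have hC : ∀ s ∈ p.support, ex s - ex k ∈ Cn g.E := fun s hs => (hp s hs).1
  let a : {s // s ∈ p.support} → g.X.R := fun s => ⟨ch g.y (ex s.1 - ex k), mem_R (hC s.1 s.2)⟩
  refine ⟨∑ s : {s // s ∈ p.support}, p.coeff s.1 • a s, ?_, ?_⟩
  · have h2 : ((∑ s : {s // s ∈ p.support}, p.coeff s.1 • a s : g.X.R) : L) =
        ∑ s ∈ p.support, algebraMap ℂ L (p.coeff s) * ch g.y (ex s - ex k) := by
      rw [← Finset.sum_coe_sort p.support fun s =>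
        algebraMap ℂ L (p.coeff s) * ch g.y (ex s - ex k), AddSubmonoidClass.coe_finsetSum]
      refine Finset.sum_congr rfl fun s _ => ?_
      change p.coeff s.1 • ch g.y (ex s.1 - ex k) = _
      rw [Algebra.smul_def]
    rw [h2, aeval_eq_sum, Finset.sum_mul]
    refine Finset.sum_congr rfl fun s _ => ?_
    rw [mul_assoc, ← ch_add g.yne, sub_add_cancel]
  · have h2 : ∀ s : {s // s ∈ p.support}, g.P (a s) = if s.1 = k then 1 else 0 := by
      intro s
      split_ifs with h
      · have h3 : a s = 1 := by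
          apply Subtype.ext
          change ch g.y (ex s.1 - ex k) = 1
          rw [h, sub_self, ch_zero]
        rw [h3, map_one]
      · exact g.hP _ _ (hC s.1 s.2) (fun h3 => h (ex_inj (sub_eq_zero.1 h3))) rfl
    rw [map_sum]
    have h3 : ∀ s : {s // s ∈ p.support}, g.P (p.coeff s.1 • a s) =
        if s.1 = k then p.coeff k else 0 := by
      intro s
      rw [map_smul, h2]
      split_ifs with h
      · rw [h, smul_eq_mul, mul_one]
      · rw [smul_zero]
    rw [Finset.sum_congr rfl fun s _ => h3 s,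
      Finset.sum_coe_sort p.support fun s => if s = k then p.coeff k else 0, Finset.sum_ite_eq']
    split_ifs with h
    · rfl
    · exact (notMem_support_iff.1 h).symm

/-- The regular function vanishes at the centre if the polynomial vanishes at the residues. -/
theorem fn_zero {v : DVal L} {π : L} (hπ : π ≠ 0) (h1 : v.ord π = 1) {x : Pt g.X}
    (hx : ∀ f : g.X.R, v.Pos (f : L) ↔ x f = 0) (hw : RI g.E T (wt g.y v))
    (hp : Shf (CT g T) p k) {f : g.X.R} (hf : (f : L) * ch g.y (ex k) = aeval g.y p)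
    {ξ : Fin (d + 1) → ℂ} (hξ : ∀ i, ξ i ≠ 0) (hξ2 : ∀ q ∈ pid hπ h1 g.yne, eval ξ q = 0)
    (h0 : eval ξ p = 0) : x f = 0 := by
  by_contra hα
  have h2 : v.Pos ((f : L) - algebraMap ℂ L (x f)) := by
    have h3 := (hx (f - algebraMap ℂ g.X.R (x f))).2 (by
      rw [map_sub, AlgHom.commutes]
      exact sub_self _)
    exact h3
  have h3 : p - monomial k (x f) ∈ pid hπ h1 g.yne := by
    have hhom : ∀ s ∈ (p - monomial k (x f)).support,
        pr (ex s) (wt g.y v) = pr (ex k) (wt g.y v) := by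
      intro s hs
      by_cases hsk : s = k
      · rw [hsk]
      · have hsp : s ∈ p.support := by
          rw [mem_support_iff, coeff_sub, coeff_monomial, if_neg (Ne.symm hsk), sub_zero] at hs
          exact mem_support_iff.2 hs
        have h4 := hp s hsp
        have h5 := (hw _ h4.1).2.2 h4.2
        rw [pr_sub] at h5
        omega
    rw [mem_pid, Ph_hom hπ h1 g.yne hhom, map_sub, aeval_mon, ← hf]
    obtain ⟨h4, h5⟩ := unit_of hπ h1 g.yne (rfl : pr (ex k) (wt g.y v) = _)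
    have h6 : ((f : L) * ch g.y (ex k) - algebraMap ℂ L (x f) * ch g.y (ex k)) *
        π ^ (-pr (ex k) (wt g.y v)) = ((f : L) - algebraMap ℂ L (x f)) *
          (ch g.y (ex k) * π ^ (-pr (ex k) (wt g.y v))) := by ring
    rw [h6]
    exact pos_mul_unit h4 h5 h2
  have h4 := hξ2 _ h3
  rw [map_sub, h0, zero_sub, neg_eq_zero, eval_monomial] at h4
  rcases mul_eq_zero.1 h4 with h5 | h5
  · exact hα h5
  · rw [Finsupp.prod, Finset.prod_eq_zero_iff] at h5
    obtain ⟨i, -, hi⟩ := h5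
    exact pow_ne_zero _ (hξ i) hi

end fn

/-- nondegeneracy near the fixed point -/
theorem nb_b (g : HypGerm d L) (T : Finset (Fin g.N)) (𝒮 : Finset (Fin (d + 1) →₀ ℕ)) :
    ∃ f : g.X.R, g.P f ≠ 0 ∧ ∀ (v : DVal L) (π : L) (hπ : π ≠ 0) (h1 : v.ord π = 1) (x : Pt g.X),
      (∀ f : g.X.R, v.Pos (f : L) ↔ x f = 0) → x f ≠ 0 → RI g.E T (wt g.y v) →
      (lead (wt g.y v) g.F).support = 𝒮 →
      ∀ ξ : Fin (d + 1) → ℂ, (∀ i, ξ i ≠ 0) → (∀ q ∈ pid hπ h1 g.yne, eval ξ q = 0) →
        ∃ i, eval ξ (pderiv i (lead (wt g.y v) g.F)) ≠ 0 := by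
  classical
  let G := sup 𝒮 g.F
  let h : Option (Fin (d + 1)) → MvPolynomial (Fin (d + 1)) ℂ := fun x =>
    x.elim G fun i => X i * pderiv i G
  rcases val_lemma (CT_zero T) (CT_add T) (CT_pt T) h with ⟨p, k, hp1, hp2, hp3⟩ | hval
  · obtain ⟨f, hf, hPf⟩ := exists_fn hp3
    refine ⟨f, by rw [hPf]; exact hp2, ?_⟩
    intro v π hπ h1 x hx hxf hw h𝒮 ξ hξ hξ2
    by_contra hcon
    push Not at hcon
    apply hxf
    refine fn_zero hπ h1 hx hw hp3 hf hξ hξ2 ?_
    have hG : G = lead (wt g.y v) g.F := by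
      simp only [G]
      rw [← h𝒮]
      exact sup_eq g.Fne
    have hle : Ideal.span (Set.range h) ≤ RingHom.ker (eval ξ) := by
      rw [Ideal.span_le]
      rintro _ ⟨j, rfl⟩
      change eval ξ (h j) = 0
      cases j with
      | none =>
        change eval ξ G = 0
        rw [hG]
        exact hξ2 _ (lead_F_mem hπ h1)
      | some i =>
        change eval ξ (X i * pderiv i G) = 0
        rw [hG, map_mul, hcon i, mul_zero]
    exact hle hp1
  · refine ⟨1, by rw [map_one]; exact one_ne_zero, ?_⟩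
    intro v π hπ h1 x hx hxf hw h𝒮 ξ0 hξ0 hξ02
    exfalso
    have hG : G = lead (wt g.y v) g.F := by
      simp only [G]
      rw [← h𝒮]
      exact sup_eq g.Fne
    have hG0 : G ≠ 0 := by
      rw [hG]
      exact lead_ne g.Fne
    obtain ⟨S, hS, hS2⟩ := exists_gens g.full
    obtain ⟨ν, hν, ξ, hξ, hξ2⟩ := hval (S.filter fun m => m ∈ TP g.E T) (fun m hm => by
      rw [Finset.mem_filter] at hm
      exact ⟨⟨(hS m hm.1).1, hm.2⟩, (hS m hm.1).2⟩)
    obtain ⟨K0, hK0⟩ := lead_lead g.Fne (wt g.y v) ν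
    let K : ℤ := max K0 (1 + ∑ s ∈ S, |pr s ν|)
    have hK1 : K0 ≤ K := le_max_left _ _
    have hK2 : 1 + ∑ s ∈ S, |pr s ν| ≤ K := le_max_right _ _
    have hlead := hK0 K hK1
    have hinn : Inn g.E (K • wt g.y v + ν) := by
      intro m hm hm0
      refine pos_of_gens g.full hS hS2 (T := ∅) (fun s hs _ => ?_) m hm (fun i hi => by simp at hi)
        hm0
      rw [pr_add_right, pr_smul_right]
      obtain ⟨h2, h3⟩ := hw s (hS s hs).1
      by_cases hsT : s ∈ TP g.E T
      · rw [h3.2 hsT, mul_zero, zero_add]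
        exact hν s (Finset.mem_filter.2 ⟨hs, hsT⟩)
      · have h4 : 1 ≤ pr s (wt g.y v) := by
          rcases h2.lt_or_eq with h5 | h5
          · omega
          · exact absurd (h3.1 h5.symm) hsT
        have h5 : |pr s ν| ≤ ∑ s ∈ S, |pr s ν| :=
          Finset.single_le_sum (f := fun s => |pr s ν|) (fun t _ => abs_nonneg _) hs
        have h6 := neg_abs_le (pr s ν)
        have h7 : K * 1 ≤ K * pr s (wt g.y v) := by
          refine mul_le_mul_of_nonneg_left h4 ?_
          have := abs_nonneg (pr s ν)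
          omega
        omega
    rw [← hG] at hlead
    have h2 : eval ξ (lead ν G) = 0 := hξ2 none
    obtain ⟨i, hi⟩ := g.nondeg _ hinn ξ hξ (by rw [hlead]; exact h2)
    rw [hlead] at hi
    have h3 := lead_euler hG0 (hξ2 (some i))
    rw [map_mul, eval_X] at h3
    exact mul_ne_zero (hξ i) hi h3

/-- the class sums near the fixed point -/
theorem nb_a (g : HypGerm d L) (T : Finset (Fin g.N)) (𝒮 : Finset (Fin (d + 1) →₀ ℕ)) :
    ∃ f : g.X.R, g.P f ≠ 0 ∧ ∀ (v : DVal L) (π : L) (hπ : π ≠ 0) (h1 : v.ord π = 1) (x : Pt g.X),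
      (∀ f : g.X.R, v.Pos (f : L) ↔ x f = 0) → x f ≠ 0 → RI g.E T (wt g.y v) →
      (lead (wt g.y v) g.F).support = 𝒮 →
      (∀ s0, cls (TP g.E T) s0 (lead (wt g.y v) g.F) ∈ pid hπ h1 g.yne) →
      ∃ ν : Fin (d + 1) → ℤ, (∀ m ∈ Cn g.E, m ∈ TP g.E T → m ≠ 0 → 0 < pr m ν) ∧
        ∀ m ∈ expo g.F, pr m (wt g.y v) = phi (expo g.F) (wt g.y v) →
          ∃ m' ∈ expo g.F, m' ≠ m ∧ m' - m ∈ TP g.E T ∧ pr m' ν ≤ pr m ν := by
  classical
  let G := sup 𝒮 g.F
  let h : {s // s ∈ 𝒮} → MvPolynomial (Fin (d + 1)) ℂ := fun s => cls (TP g.E T) s.1 G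
  rcases val_lemma (CT_zero T) (CT_add T) (CT_pt T) h with ⟨p, k, hp1, hp2, hp3⟩ | hval
  · obtain ⟨f, hf, hPf⟩ := exists_fn hp3
    refine ⟨f, by rw [hPf]; exact hp2, ?_⟩
    intro v π hπ h1 x hx hxf hw h𝒮 hcls
    exfalso
    apply hxf
    have hG : G = lead (wt g.y v) g.F := by
      simp only [G]
      rw [← h𝒮]
      exact sup_eq g.Fne
    obtain ⟨ξ, hξ, hξ2, -⟩ := exists_pt (pid_prime hπ h1 g.yne) (X_notMem hπ h1 g.yne)
      (q := 1) (fun h => (pid_prime hπ h1 g.yne).ne_top ((Ideal.eq_top_iff_one _).2 h))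
    refine fn_zero hπ h1 hx hw hp3 hf hξ hξ2 ?_
    apply hξ2
    have hle : Ideal.span (Set.range h) ≤ pid hπ h1 g.yne := by
      rw [Ideal.span_le]
      rintro _ ⟨j, rfl⟩
      change cls (TP g.E T) j.1 G ∈ pid hπ h1 g.yne
      rw [hG]
      exact hcls j.1
    exact hle hp1
  · refine ⟨1, by rw [map_one]; exact one_ne_zero, ?_⟩
    intro v π hπ h1 x hx hxf hw h𝒮 hcls
    have hG : G = lead (wt g.y v) g.F := by
      simp only [G]
      rw [← h𝒮]
      exact sup_eq g.Fne
    obtain ⟨S, hS, hS2⟩ := exists_gens g.full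
    obtain ⟨ν, hν, ξ, hξ, hξ2⟩ := hval (S.filter fun m => m ∈ TP g.E T) (fun m hm => by
      rw [Finset.mem_filter] at hm
      exact ⟨⟨(hS m hm.1).1, hm.2⟩, (hS m hm.1).2⟩)
    refine ⟨ν, pos_of_gens g.full hS hS2 fun s hs hsT => hν s (Finset.mem_filter.2 ⟨hs, hsT⟩), ?_⟩
    intro m hm hmw
    obtain ⟨s, hs, rfl⟩ := mem_expo.1 hm
    have hsl : s ∈ (lead (wt g.y v) g.F).support := by
      rw [lead_phi g.Fne, mem_support_iff, coeff_part, if_pos hmw]
      exact mem_support_iff.1 hs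
    have hs𝒮 : s ∈ 𝒮 := by rw [← h𝒮]; exact hsl
    have h2 : eval ξ (lead ν (cls (TP g.E T) s G)) = 0 := hξ2 ⟨s, hs𝒮⟩
    have hc : (cls (TP g.E T) s G).coeff s ≠ 0 := by
      rw [coeff_cls, if_pos (by rw [sub_self]; exact Submodule.zero_mem _), hG]
      exact mem_support_iff.1 hsl
    have hne : cls (TP g.E T) s G ≠ 0 := by
      intro h3
      apply hc
      rw [h3, coeff_zero]
    obtain ⟨t, ht, hts⟩ : ∃ t ∈ (lead ν (cls (TP g.E T) s G)).support, t ≠ s := by
      by_contra h3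
      push Not at h3
      have h4 : lead ν (cls (TP g.E T) s G) =
          monomial s ((lead ν (cls (TP g.E T) s G)).coeff s) := by
        ext r
        rw [coeff_monomial]
        by_cases hr : s = r
        · rw [if_pos hr, hr]
        · rw [if_neg hr]
          by_contra h5
          exact hr (h3 r (mem_support_iff.2 h5)).symm
      have h5 : (lead ν (cls (TP g.E T) s G)).coeff s ≠ 0 := by
        intro h6
        rw [h6, monomial_zero] at h4
        exact lead_ne hne h4
      rw [h4, eval_monomial] at h2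
      rcases mul_eq_zero.1 h2 with h6 | h6
      · exact h5 h6
      · rw [Finsupp.prod, Finset.prod_eq_zero_iff] at h6
        obtain ⟨i, -, hi⟩ := h6
        exact pow_ne_zero _ (hξ i) hi
    obtain ⟨ht1, ht2⟩ := lead_support hne t ht
    rw [mem_support_iff, coeff_cls] at ht1
    have ht3 : ex t - ex s ∈ TP g.E T := by
      by_contra h3
      exact ht1 (if_neg h3)
    rw [if_pos ht3, hG] at ht1
    have ht4 := (lead_support g.Fne t (mem_support_iff.2 ht1)).1
    refine ⟨ex t, mem_expo.2 ⟨t, ht4, rfl⟩, fun h3 => hts (ex_inj h3), ht3, ?_⟩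
    rw [ht2]
    exact (phi_expo hne ν).2 s (mem_support_iff.2 hc)

/-- **The neighbourhood of the fixed point.** -/
theorem nb (g : HypGerm d L) : ∃ f : g.X.R, g.P f ≠ 0 ∧
    ∀ (T : Finset (Fin g.N)) (v : DVal L) (π : L) (hπ : π ≠ 0) (h1 : v.ord π = 1) (x : Pt g.X),
      (∀ f : g.X.R, v.Pos (f : L) ↔ x f = 0) → x f ≠ 0 → RI g.E T (wt g.y v) →
      (∀ ξ : Fin (d + 1) → ℂ, (∀ i, ξ i ≠ 0) → (∀ q ∈ pid hπ h1 g.yne, eval ξ q = 0) →
        ∃ i, eval ξ (pderiv i (lead (wt g.y v) g.F)) ≠ 0) ∧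
      ((∀ s0, cls (TP g.E T) s0 (lead (wt g.y v) g.F) ∈ pid hπ h1 g.yne) →
      ∃ ν : Fin (d + 1) → ℤ, (∀ m ∈ Cn g.E, m ∈ TP g.E T → m ≠ 0 → 0 < pr m ν) ∧
        ∀ m ∈ expo g.F, pr m (wt g.y v) = phi (expo g.F) (wt g.y v) →
          ∃ m' ∈ expo g.F, m' ≠ m ∧ m' - m ∈ TP g.E T ∧ pr m' ν ≤ pr m ν) := by
  classical
  choose fb hfb1 hfb2 using nb_b g
  choose fa hfa1 hfa2 using nb_a g
  let f : g.X.R := ∏ T : Finset (Fin g.N), ∏ 𝒮 ∈ g.F.support.powerset, fb T 𝒮 * fa T 𝒮
  refine ⟨f, ?_, ?_⟩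
  · simp only [f]
    rw [map_prod]
    refine Finset.prod_ne_zero_iff.2 fun T _ => ?_
    rw [map_prod]
    refine Finset.prod_ne_zero_iff.2 fun 𝒮 _ => ?_
    rw [map_mul]
    exact mul_ne_zero (hfb1 _ _) (hfa1 _ _)
  · intro T v π hπ h1 x hx hxf hw
    have h𝒮 : (lead (wt g.y v) g.F).support ∈ g.F.support.powerset := by
      rw [Finset.mem_powerset]
      intro s hs
      exact (lead_support g.Fne s hs).1
    have h2 : x (fb T (lead (wt g.y v) g.F).support * fa T (lead (wt g.y v) g.F).support) ≠ 0 := by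
      simp only [f] at hxf
      rw [map_prod] at hxf
      have h3 := Finset.prod_ne_zero_iff.1 hxf T (Finset.mem_univ _)
      rw [map_prod] at h3
      exact Finset.prod_ne_zero_iff.1 h3 _ h𝒮
    rw [map_mul] at h2
    exact ⟨hfb2 T _ v π hπ h1 x hx (left_ne_zero_of_mul h2) hw rfl,
      hfa2 T _ v π hπ h1 x hx (right_ne_zero_of_mul h2) hw rfl⟩

end Pool.Agent.K9h50.NH
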