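import Mathlib
import Pool.Agent.K9h50.LS.C
import Pool.Agent.K9h50.LS.Z
import Pool.Agent.Helper58K9.AR.Mld

/-!
# Lower semicontinuity at the fixed point
-/

set_option autoImplicit false
set_option linter.unusedSectionVars false
set_option maxHeartbeats 800000

namespace Pool.Agent.K9h50.NH

open Pool.Agent.H436R3.Fol hiding ex
open Pool.Agent.H436R3.KT Pool.Agent.W497.Mld MvPolynomial
open Pool.Agent.TH165.ACC (pr ex Prim Cn Hs lead part mldsR mvI mem_mvI ord_eq_zero_of_notMem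
  lead_eq coeff_part pr_add pr_zero pr_neg pr_sub pr_smul pr_smul_right ex_add ex_inj exists_minor
  euler_part support_euler coeff_euler exists_nat_ex DualVec exists_dual exists_prim)
open Pool.Agent.Helper43K9.NH
open Pool.Agent.Helper58K9.AR (mld)

variable {d : ℕ} {L : Type} [Field L] [Algebra ℂ L] {g : HypGerm d L}

/-- a toric boundary -/
def toBdy (b : Bd g) : Bdy g where
  β := b.β
  β0 := b.nonneg
  s := 0
  c := Fin.elim0
  c0 := fun j => j.elim0
  c1 := fun j => j.elim0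
  G := Fin.elim0
  Gne := fun j => j.elim0
  nondeg := fun w hw ξ hξ h0 => by
    have huniq : Subsingleton {j : Option (Fin 0) //
        eval ξ (lead w (sys g.F Fin.elim0 j)) = 0} := by
      constructor
      rintro ⟨a, ha⟩ ⟨b, hb⟩
      cases a with
      | none =>
        cases b with
        | none => rfl
        | some j => exact j.elim0
      | some j => exact j.elim0
    rw [linearIndependent_subsingleton_index_iff]
    rintro ⟨a, ha⟩
    cases a with
    | none =>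
      obtain ⟨i, hi⟩ := g.nondeg _ hw ξ hξ h0
      intro h2
      have h3 := congrFun h2 i
      exact mul_ne_zero (hξ i) hi h3
    | some j => exact j.elim0
  ψ := b.ψ
  eq := fun i => by
    rw [b.eq i]
    simp

theorem ld_toBdy (b : Bd g) (w : Fin (d + 1) → ℤ) :
    ld (toBdy b) w = dot b.ψ w - (phi (expo g.F) w : ℝ) := by
  rw [ld]
  have : ∑ j, (toBdy b).c j * (phi (expo ((toBdy b).G j)) w : ℝ) = 0 :=
    Finset.sum_eq_zero fun j _ => Fin.elim0 j
  rw [this, sub_zero]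
  rfl

section face

/-- the monomials which do not vanish at `x` -/
def UM (g : HypGerm d L) (x : Pt g.X) (m : Fin (d + 1) → ℤ) : Prop :=
  ∃ hm : m ∈ Cn g.E, x ⟨ch g.y m, mem_R hm⟩ ≠ 0

theorem cn_add {a b : Fin (d + 1) → ℤ} (ha : a ∈ Cn g.E) (hb : b ∈ Cn g.E) : a + b ∈ Cn g.E := by
  intro i
  rw [pr_add]
  exact add_nonneg (ha i) (hb i)

theorem ch_mulR {a b : Fin (d + 1) → ℤ} (ha : a ∈ Cn g.E) (hb : b ∈ Cn g.E) :
    (⟨ch g.y (a + b), mem_R (cn_add ha hb)⟩ : g.X.R) =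
      ⟨ch g.y a, mem_R ha⟩ * ⟨ch g.y b, mem_R hb⟩ := by
  apply Subtype.ext
  exact ch_add g.yne a b

variable {x : Pt g.X}

theorem UM.add {a b : Fin (d + 1) → ℤ} (ha : UM g x a) (hb : UM g x b) : UM g x (a + b) := by
  obtain ⟨h1, h2⟩ := ha
  obtain ⟨h3, h4⟩ := hb
  refine ⟨cn_add h1 h3, ?_⟩
  rw [ch_mulR h1 h3, map_mul]
  exact mul_ne_zero h2 h4

theorem UM.zero : UM g x 0 := by
  refine ⟨fun i => by rw [pr_zero], ?_⟩
  have h : ∀ h0 : ch g.y 0 ∈ g.X.R, (⟨ch g.y 0, h0⟩ : g.X.R) = 1 := fun h0 =>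
    Subtype.ext (ch_zero)
  rw [h, map_one]
  exact one_ne_zero

theorem UM.left {a b : Fin (d + 1) → ℤ} (ha : a ∈ Cn g.E) (hb : b ∈ Cn g.E)
    (h : UM g x (a + b)) : UM g x a := by
  obtain ⟨h1, h2⟩ := h
  refine ⟨ha, ?_⟩
  rw [ch_mulR ha hb, map_mul] at h2
  exact left_ne_zero_of_mul h2

theorem UM.nsmul {a : Fin (d + 1) → ℤ} (ha : UM g x a) (k : ℕ) : UM g x (k • a) := by
  induction k with
  | zero => rw [zero_smul]; exact UM.zero
  | succ k ih => rw [succ_nsmul]; exact ih.add ha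

/-- the stratum of `x` -/
theorem face_of (g : HypGerm d L) (x : Pt g.X) : ∃ T : Finset (Fin g.N),
    (∀ m ∈ Cn g.E, UM g x m ↔ m ∈ TP g.E T) ∧ ∃ Q, UM g x Q ∧ ∀ i, i ∉ T → 0 < pr Q (g.E i) := by
  classical
  let T : Finset (Fin g.N) := Finset.univ.filter fun i => ∀ m, UM g x m → pr m (g.E i) = 0
  have hT : ∀ m, UM g x m → m ∈ TP g.E T := by
    intro m hm i hi
    exact (Finset.mem_filter.1 hi).2 m hm
  have hex : ∀ i, ∃ m, UM g x m ∧ (i ∉ T → pr m (g.E i) ≠ 0) := by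
    intro i
    by_cases hi : i ∈ T
    · exact ⟨0, UM.zero, fun h => absurd hi h⟩
    · have h1 : ¬ ∀ m, UM g x m → pr m (g.E i) = 0 := by
        intro h
        exact hi (Finset.mem_filter.2 ⟨Finset.mem_univ _, h⟩)
      push Not at h1
      obtain ⟨m, hm, hm2⟩ := h1
      exact ⟨m, hm, fun _ => hm2⟩
  choose q hq hq2 using hex
  have hQ : UM g x (∑ i, q i) :=
    Finset.sum_induction q (UM g x) (fun _ _ => UM.add) UM.zero fun i _ => hq i
  have hQ2 : ∀ i, i ∉ T → 0 < pr (∑ i, q i) (g.E i) := by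
    intro i hi
    have h1 : pr (∑ i, q i) (g.E i) = ∑ j, pr (q j) (g.E i) := by
      rw [pr_comm, pr_sum_right]
      exact Finset.sum_congr rfl fun j _ => pr_comm _ _
    rw [h1]
    refine Finset.sum_pos' (fun j _ => (hq j).1 i) ⟨i, Finset.mem_univ _, ?_⟩
    have h2 := (hq i).1 i
    have h3 := hq2 i hi
    omega
  refine ⟨T, fun m hm => ⟨hT m, fun hmT => ?_⟩, _, hQ, hQ2⟩
  let k : ℕ := (∑ i, pr m (g.E i)).toNat
  have hk : ∀ i, pr m (g.E i) ≤ k := by
    intro i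
    have h1 : pr m (g.E i) ≤ ∑ i, pr m (g.E i) :=
      Finset.single_le_sum (f := fun i => pr m (g.E i)) (fun j _ => hm j) (Finset.mem_univ i)
    have h2 := Int.self_le_toNat (∑ i, pr m (g.E i))
    simp only [k]
    omega
  have hd : k • (∑ i, q i) - m ∈ Cn g.E := by
    intro i
    have h1 : pr (k • (∑ i, q i) - m) (g.E i) = k * pr (∑ i, q i) (g.E i) - pr m (g.E i) := by
      rw [pr_sub, ← natCast_zsmul, pr_smul]
    rw [h1]
    by_cases hi : i ∈ T
    · rw [hmT i hi, hT _ hQ i hi]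
      simp
    · have h2 := hQ2 i hi
      have h3 : (k : ℤ) * 1 ≤ k * pr (∑ i, q i) (g.E i) :=
        mul_le_mul_of_nonneg_left (by omega) (by omega)
      have h4 := hk i
      omega
  refine UM.left hm hd ?_
  rw [add_sub_cancel]
  exact hQ.nsmul k

variable {v : DVal L}

theorem ri_of_over (hv : IsOverGerm x v) {T : Finset (Fin g.N)}
    (hT : ∀ m ∈ Cn g.E, UM g x m ↔ m ∈ TP g.E T) : RI g.E T (wt g.y v) := by
  intro m hm
  obtain ⟨⟨S, -, hS, hl⟩, hx⟩ := hv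
  have h1 : v.Reg (ch g.y m) := hl.1 _ (hS (mem_R hm))
  have h2 := v.ord_nonneg (ch_ne g.yne m) h1
  rw [ord_ch g.yne] at h2
  refine ⟨h2, ?_⟩
  rw [← hT m hm]
  have h3 := hx ⟨ch g.y m, mem_R hm⟩
  constructor
  · intro h0
    refine ⟨hm, fun h4 => ?_⟩
    rcases h3.2 h4 with h5 | h5
    · exact ch_ne g.yne m h5
    · change 0 < v.ord (ch g.y m) at h5
      rw [ord_ch g.yne] at h5
      omega
  · rintro ⟨hm1, h4⟩
    by_contra h5
    apply h4
    apply h3.1
    right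
    change 0 < v.ord (ch g.y m)
    rw [ord_ch g.yne]
    omega

theorem res_of_over (hx : ∀ f : g.X.R, v.Pos (f : L) ↔ x f = 0) {T : Finset (Fin g.N)}
    (hT : ∀ m ∈ Cn g.E, UM g x m ↔ m ∈ TP g.E T) {Q : Fin (d + 1) → ℤ} (hQ : UM g x Q)
    (hQ2 : ∀ i, i ∉ T → 0 < pr Q (g.E i)) :
    ∀ m ∈ TP g.E T, ∃ c : ℂ, c ≠ 0 ∧ v.Pos (ch g.y m - algebraMap ℂ L c) := by
  intro m hm
  let k : ℕ := (∑ i, |pr m (g.E i)|).toNat
  have hk : ∀ i, |pr m (g.E i)| ≤ k := by
    intro i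
    have h1 : |pr m (g.E i)| ≤ ∑ i, |pr m (g.E i)| :=
      Finset.single_le_sum (f := fun i => |pr m (g.E i)|) (fun j _ => abs_nonneg _)
        (Finset.mem_univ i)
    have h2 := Int.self_le_toNat (∑ i, |pr m (g.E i)|)
    simp only [k]
    omega
  have hb := hQ.nsmul k
  have hQT : Q ∈ TP g.E T := (hT Q hQ.1).1 hQ
  have hac : m + k • Q ∈ Cn g.E := by
    intro i
    have h1 : pr (m + k • Q) (g.E i) = pr m (g.E i) + k * pr Q (g.E i) := by
      rw [pr_add, ← natCast_zsmul, pr_smul]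
    rw [h1]
    by_cases hi : i ∈ T
    · rw [hm i hi, hQT i hi]
      simp
    · have h2 := hQ2 i hi
      have h3 : (k : ℤ) * 1 ≤ k * pr Q (g.E i) := mul_le_mul_of_nonneg_left (by omega) (by omega)
      have h4 := hk i
      have h5 := neg_abs_le (pr m (g.E i))
      omega
  have ha : UM g x (m + k • Q) := by
    rw [hT _ hac]
    exact Submodule.add_mem _ hm (Submodule.smul_of_tower_mem _ k hQT)
  obtain ⟨ha1, ha2⟩ := ha
  obtain ⟨hb1, hb2⟩ := hb
  set α : ℂ := x ⟨ch g.y (m + k • Q), mem_R ha1⟩ with hα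
  set β : ℂ := x ⟨ch g.y (k • Q), mem_R hb1⟩ with hβ
  have hres : ∀ f : g.X.R, v.Pos ((f : L) - algebraMap ℂ L (x f)) := by
    intro f
    have h3 := (hx (f - algebraMap ℂ g.X.R (x f))).2 (by
      rw [map_sub, AlgHom.commutes]
      exact sub_self _)
    exact h3
  have h1 : v.Pos (ch g.y (m + k • Q) - algebraMap ℂ L α) := hres ⟨_, mem_R ha1⟩
  have h2 : v.Pos (ch g.y (k • Q) - algebraMap ℂ L β) := hres ⟨_, mem_R hb1⟩
  obtain ⟨h3, h4⟩ := ord_of_res hb2 h2
  refine ⟨α / β, div_ne_zero ha2 hb2, ?_⟩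
  have hβL : algebraMap ℂ L β ≠ 0 := by
    rw [Ne, map_eq_zero]
    exact hb2
  have h5 : ch g.y m - algebraMap ℂ L (α / β) = (algebraMap ℂ L β *
      (ch g.y (m + k • Q) - algebraMap ℂ L α) + (-algebraMap ℂ L α) *
        (ch g.y (k • Q) - algebraMap ℂ L β)) * (algebraMap ℂ L β * ch g.y (k • Q))⁻¹ := by
    rw [ch_add g.yne, map_div₀]
    field_simp
    ring
  rw [h5]
  have h6 : algebraMap ℂ L β * ch g.y (k • Q) ≠ 0 := mul_ne_zero hβL h3
  refine pos_mul_unit (inv_ne_zero h6) ?_ (v.pos_add (v.pos_mul_left (v.reg_const β) h1)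
    (v.pos_mul_left (v.reg_neg (v.reg_const α)) h2))
  have h7 : v.ord (algebraMap ℂ L β * ch g.y (k • Q)) = 0 := by
    rw [v.map_mul _ _ hβL h3, v.const _ hb2, h4, add_zero]
  have h8 := v.map_mul _ _ h6 (inv_ne_zero h6)
  rw [mul_inv_cancel₀ h6, h7, zero_add] at h8
  have h9 : v.ord (1 : L) = 0 := by
    have := v.const 1 one_ne_zero
    rwa [map_one] at this
  rw [← h8, h9]

end face

/-- a basis -/
theorem exists_basis {n N : ℕ} (E : Fin N → Fin n → ℤ) (T : Finset (Fin N)) :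
    ∃ (k : ℕ) (m : Fin k → Fin n → ℤ) (D : ℤ), (∀ j, m j ∈ TP E T) ∧ DualVec m D ∧
      (∀ z : Fin k → ℤ, ∑ j, z j • m j = 0 → z = 0) ∧
      ∀ x ∈ TP E T, ∃ z : Fin k → ℤ, x = ∑ j, z j • m j := by
  let bs := Module.finBasis ℤ (TP E T)
  let m : Fin (Module.finrank ℤ (TP E T)) → Fin n → ℤ := fun j => (bs j : Fin n → ℤ)
  have hli : LinearIndependent ℤ m := by
    have h1 := bs.linearIndependent
    exact h1.map' (TP E T).subtype (Submodule.ker_subtype _)
  have hli2 : LinearIndependent ℚ fun j (i : Fin n) => (m j i : ℚ) := by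
    rw [← LinearIndependent.iff_fractionRing ℤ ℚ]
    let f : (Fin n → ℤ) →ₗ[ℤ] (Fin n → ℚ) := (Algebra.linearMap ℤ ℚ).compLeft (Fin n)
    have hf : LinearMap.ker f = ⊥ := by
      rw [LinearMap.ker_eq_bot]
      intro a b hab
      funext i
      have h1 := congrFun hab i
      have h2 : (a i : ℚ) = (b i : ℚ) := h1
      exact_mod_cast h2
    exact hli.map' f hf
  obtain ⟨D, hD⟩ := exists_dual hli2
  refine ⟨_, m, D, fun j => (bs j).2, hD, fun z hz => ?_, fun x hx => ?_⟩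
  · funext j
    exact (Fintype.linearIndependent_iff.1 hli) z hz j
  · refine ⟨fun j => bs.repr ⟨x, hx⟩ j, ?_⟩
    have h1 := bs.sum_repr ⟨x, hx⟩
    have h2 := congrArg (fun z : TP E T => (z : Fin n → ℤ)) h1
    simp only [Submodule.coe_sum, Submodule.coe_smul] at h2
    exact h2.symm

/-- `K_X + B` is, at the closed point `x`, the restriction to `X` of `K_Y + X + ∑ β_i D_i`. -/
def IsResAt (b : Bd g) {B : EffDiv g.X} {x : Pt g.X} (e : LocEq B x) : Prop :=
  ∀ v : DVal L, IsOverGerm x v →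
    ∑ k, e.ρ k * (v.ord (e.g k) : ℝ) = -dot b.ψ (wt g.y v)

/-- **Comparison of a prime divisor over a nearby point with the fixed point.** -/
theorem compare (hk : KltTy g) (b : Bd g) : ∃ f : g.X.R, g.P f ≠ 0 ∧
    ∀ (B : EffDiv g.X) (x : Pt g.X) (e : LocEq B x) (e0 : LocEq B g.P), x f ≠ 0 → IsResAt b e →
      IsResAt b e0 → ∀ v a, IsOverGerm x v → IsLogDisc e v a →
      ∃ v' a', IsOverGerm g.P v' ∧ IsLogDisc e0 v' a' ∧ (a' < 0 ∨ a' ≤ a) := by
  obtain ⟨f, hf, hnb⟩ := nb g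
  refine ⟨f, hf, ?_⟩
  intro B x e e0 hxf he he0 v a hv ha
  obtain ⟨T, hT, Q, hQ, hQ2⟩ := face_of g x
  have hri := ri_of_over hv hT
  have hres := res_of_over hv.2 hT hQ hQ2
  obtain ⟨k, m, D, hm, hD, hind, hspan⟩ := exists_basis g.E T
  obtain ⟨π, hπ, h1⟩ := v.surj
  obtain ⟨hnd, hcl⟩ := hnb T v π hπ h1 x hv.2 hxf hri
  obtain ⟨n, hn, rfl⟩ := ha
  obtain ⟨A, hA0, hA, hAn⟩ := hn.1
  have hlow := low_bound hπ h1 hm hD hres hnd A hA0 hA
  rw [hAn] at hlow
  have hw : ∃ w', Inn g.E w' ∧ ld (toBdy b) w' ≤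
      1 + (n : ℝ) - ∑ i, e.ρ i * (v.ord (e.g i) : ℝ) := by
    rw [he v hv]
    rcases hlow with h2 | ⟨h2, h3, h4⟩
    · obtain ⟨w', hw', h5, -⟩ := comb hri hm hind hspan (ν := ∑ i, g.E i) (by
        intro y hy _ hy0
        rw [pr_sum_right]
        refine Finset.sum_pos' (fun i _ => hy i) ?_
        by_contra h
        push Not at h
        exact hy0 (g.full y fun i => le_antisymm (h i (Finset.mem_univ _)) (hy i)))
      refine ⟨w', hw', (h5 _).trans ?_⟩
      rw [ld_toBdy]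
      have h6 : (k : ℝ) ≤ (n : ℝ) + 1 + (phi (expo g.F) (wt g.y v) : ℝ) := by exact_mod_cast h2
      linarith
    · obtain ⟨ν, hν, hpair⟩ := hcl h4
      obtain ⟨w', hw', -, h5⟩ := comb hri hm hind hspan hν
      refine ⟨w', hw', (h5 h2 hpair _).trans ?_⟩
      rw [ld_toBdy]
      have h6 : (k : ℝ) - 1 ≤ (n : ℝ) + 1 + (phi (expo g.F) (wt g.y v) : ℝ) := by
        exact_mod_cast h3
      linarith
  obtain ⟨w', hw', hle⟩ := hw
  obtain ⟨w2, hw2, ht, hle2⟩ := walk hk hw'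
  obtain ⟨K, u, hK0, hu, rfl⟩ := exists_prim (inn_ne hw2)
  have hui : Inn g.E u := Inn.of_smul hK0 hw2
  have hut : Trop (expo g.F) u := by
    obtain ⟨m, hm, m', hm', hne, h1, h2⟩ := ht
    rw [pr_smul_right, phi_smul (expo_nonempty g.Fne) hK0.le] at h1 h2
    exact ⟨m, hm, m', hm', hne, mul_left_cancel₀ hK0.ne' h1, mul_left_cancel₀ hK0.ne' h2⟩
  obtain ⟨v', hov, hwt, hcan, -⟩ := exists_over hui hu hut
  refine ⟨v', ld (toBdy b) u, hov, ⟨_, hcan, ?_⟩, ?_⟩
  · rw [he0 v' hov, hwt, ld_toBdy]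
    push_cast
    ring
  · have h2 := hle2 (toBdy b)
    rw [ld_smul _ hK0.le] at h2
    by_cases h3 : ld (toBdy b) u < 0
    · exact Or.inl h3
    · right
      push Not at h3
      have hKR : (1 : ℝ) ≤ K := by exact_mod_cast hK0
      have h4 : ld (toBdy b) u ≤ K * ld (toBdy b) u := by nlinarith
      linarith

/-- **Lower semicontinuity at the fixed point.** -/
theorem hyp_lsc (hk : KltTy g) (b : Bd g) {B : EffDiv g.X} {E : ∀ x : Pt g.X, LocEq B x}
    (hE : ∀ x, IsResAt b (E x)) :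
    ∃ f : g.X.R, g.P f ≠ 0 ∧ ∀ x, x f ≠ 0 → mld (E g.P) ≤ mld (E x) := by
  obtain ⟨f, hf, hcomp⟩ := compare hk b
  refine ⟨f, hf, fun x hx => ?_⟩
  have key := hcomp B x (E x) (E g.P) hx (hE x) (hE g.P)
  by_cases h : ∃ v a, IsOverGerm g.P v ∧ IsLogDisc (E g.P) v a ∧ a < 0
  · have : mld (E g.P) = ⊥ := by
      unfold mld
      rw [if_pos h]
    rw [this]
    exact bot_le
  · have h1 : mld (E g.P) = sInf {a : EReal | ∃ v r, IsOverGerm g.P v ∧
        IsLogDisc (E g.P) v r ∧ a = (r : EReal)} := by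
      unfold mld
      rw [if_neg h]
    have h2 : ¬ ∃ v a, IsOverGerm x v ∧ IsLogDisc (E x) v a ∧ a < 0 := by
      rintro ⟨v, a, hv, ha, h0⟩
      obtain ⟨v', a', hv', ha', h3⟩ := key v a hv ha
      apply h
      refine ⟨v', a', hv', ha', ?_⟩
      rcases h3 with h3 | h3
      · exact h3
      · linarith
    have h3 : mld (E x) = sInf {a : EReal | ∃ v r, IsOverGerm x v ∧
        IsLogDisc (E x) v r ∧ a = (r : EReal)} := by
      unfold mld
      rw [if_neg h2]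
    rw [h1, h3]
    apply le_sInf
    rintro _ ⟨v, r, hv, hr, rfl⟩
    obtain ⟨v', a', hv', ha', h4⟩ := key v r hv hr
    have h5 : a' ≤ r := by
      rcases h4 with h4 | h4
      · exact absurd ⟨v', a', hv', ha', h4⟩ h
      · exact h4
    refine le_trans (sInf_le ⟨v', a', hv', ha', rfl⟩) ?_
    exact_mod_cast h5

end Pool.Agent.K9h50.NH
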