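import Mathlib
import Pool.Agent.K9h50.LS.Q
import Pool.Agent.Helper58K9.ET.Asm
import Pool.Agent.Helper58K9.ET.Dens
import Pool.Agent.Helper58K9.ET.Down
import Pool.Agent.Helper58K9.ET.Up
import Pool.Agent.Helper58K9.ET.Extd
import Pool.Agent.Helper58K9.ET.Appr
import Pool.Agent.Helper58K9.ET.Chg
import Pool.Agent.Helper58K9.ET.Opn
import Pool.Agent.Helper58K9.ET.Refl

/-!
# Pairs which are étale locally nondegenerate hypersurfaces: lower semicontinuity
-/

set_option autoImplicit false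
set_option linter.unusedSectionVars false

namespace Pool.Agent.K9h50.NH

open Pool.Agent.H436R3.Fol hiding ex
open Pool.Agent.H436R3.KT Pool.Agent.W497.Mld
open Pool.Agent.Helper43K9.NH
open Pool.Agent.Helper58K9.AR (mld)
open Pool.Agent.Helper58K9.ET (Common lsc_of_common up down dens frac extd appr chg opn common_refl)

variable {d : ℕ} {L : Type} [Field L] [Algebra ℂ L] {g : HypGerm d L}

/-- `K_X + B = (K_Y + X + ∑ β_i D_i)|_X`: the divisor `K_X + B` is the one of `y ^ (-ψ)`. -/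
def IsResDiv (b : Bd g) (B : EffDiv g.X) : Prop :=
  ∀ v, IsLocalRing' g.X.R v → ∃ a : ℤ, IsCanOrd g.X.T v a ∧
    (a : ℝ) + B.mult v = -dot b.ψ (wt g.y v)

/-- the local equation `y ^ (-ψ)` of `K_X + B` -/
noncomputable def resEq {b : Bd g} {B : EffDiv g.X} (h : IsResDiv b B) (x : Pt g.X) :
    LocEq B x where
  n := d + 1
  ρ := fun i => -b.ψ i
  g := g.y
  ne := g.yne
  eq := fun v hv => by
    obtain ⟨a, h1, h2⟩ := h v hv.1
    refine ⟨a, h1, h2.trans ?_⟩
    rw [dot, ← Finset.sum_neg_distrib]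
    exact Finset.sum_congr rfl fun i _ => by rw [neg_mul]; rfl

theorem resEq_res {b : Bd g} {B : EffDiv g.X} (h : IsResDiv b B) (x : Pt g.X) :
    IsResAt b (resEq h x) := by
  intro v _
  change ∑ i, -b.ψ i * (v.ord (g.y i) : ℝ) = _
  rw [dot, ← Finset.sum_neg_distrib]
  exact Finset.sum_congr rfl fun i _ => by rw [neg_mul]; rfl

/-- The pair `(X, B)`, with the local equations `E` of `K_X + B`, is at the closed point `x` étale
locally isomorphic to the germ at the fixed point `P` of a pair `(Y, B')` as follows: `Y` is a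
nondegenerate hypersurface in an affine toric variety `Z`, of klt type, and
`K_Y + B' = (K_Z + Y + ∑ β_i D_i)|_Y` for a toric boundary `∑ β_i D_i` on `Z`. -/
def IsHyp {K : Type} [Field K] [Algebra ℂ K] {X : AffVar K} {B : EffDiv X}
    (E : ∀ x : Pt X, LocEq B x) (x : Pt X) : Prop :=
  ∃ (d : ℕ) (M : Type) (_ : Field M) (_ : Algebra ℂ M) (g : HypGerm d M) (_ : KltTy g)
    (b : Bd g) (B' : EffDiv g.X) (h : IsResDiv b B'), Common E x (resEq h) g.P

theorem et_lsc {K : Type} [Field K] [Algebra ℂ K] {X : AffVar K} {B : EffDiv X}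
    {E : ∀ x : Pt X, LocEq B x} {x : Pt X} (hx : IsHyp E x) :
    ∃ f : X.R, x f ≠ 0 ∧ ∀ x' : Pt X, x' f ≠ 0 → mld (E x) ≤ mld (E x') := by
  obtain ⟨d, M, _, _, g, hk, b, B', h, hcom⟩ := hx
  exact lsc_of_common up (down dens frac) dens (extd frac) appr chg opn hcom
    (hyp_lsc hk b fun y => resEq_res h y)

end Pool.Agent.K9h50.NH
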